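import Pool.Agent.Run7.h615.WL.WeilDefs
import Pool.Agent.Y143.Mon
import Pool.Agent.Y143.WeilNum

/-!
# From the Frobenius of a dominating variety to all elements of the Weil group
-/

set_option autoImplicit false

namespace Run7.h615.WL

universe u v

open Module Pool.Agent.Y143

section

variable {Ω : Type u} [Field Ω] {V : Type v} [AddCommGroup V] [Module Ω V]
  {V' : Type v} [AddCommGroup V'] [Module Ω V']

lemma functorial' {N : Module.End Ω V} {M : ℤ → Submodule Ω V} (h : IsMonodromyFiltration N M)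
    {N' : Module.End Ω V'} {M' : ℤ → Submodule Ω V'} (h' : IsMonodromyFiltration N' M')
    (A : V →ₗ[Ω] V') {c : Ω} (hc : c ≠ 0) (hN : ∀ x, N' (A x) = c • A (N x)) (s : ℤ) {x : V}
    (hx : x ∈ M s) : A x ∈ M' s :=
  h.on.functorial h'.on A (fun _ _ => Submodule.mem_top) hc (fun x _ => hN x) s hx

/-- An eigenvalue of a power on a graded piece is the power of an eigenvalue. -/
lemma exists_root_eigen [IsAlgClosed Ω] [Module.Finite Ω V] (F : Module.End Ω V)
    {A B : Submodule Ω V} (hA : ∀ x ∈ A, F x ∈ A) (hB : ∀ x ∈ B, F x ∈ B)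
    (m : ℕ) {β : Ω} {y : V} (hy : y ∈ A) (hyB : y ∉ B) (h : (F ^ m) y - β • y ∈ B) :
    ∃ (γ : Ω) (z : V), γ ^ m = β ∧ z ∈ A ∧ z ∉ B ∧ F z - γ • z ∈ B := by
  have hle : B ≤ B.comap F := fun x hx => hB x hx
  let G : Module.End Ω (V ⧸ B) := B.mapQ B F hle
  have hG : ∀ x, G (B.mkQ x) = B.mkQ (F x) := fun x => rfl
  have hGp : ∀ (k : ℕ) x, (G ^ k) (B.mkQ x) = B.mkQ ((F ^ k) x) := by
    intro k
    induction k with
    | zero => intro x; rfl
    | succ k ih =>
      intro x
      rw [pow_succ', Module.End.mul_apply, ih, hG, pow_succ' F, Module.End.mul_apply]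
  let U : Submodule Ω (V ⧸ B) := A.map B.mkQ ⊓ LinearMap.ker (G ^ m - β • (1 : Module.End Ω (V ⧸ B)))
  have hU : ∀ u ∈ U, G u ∈ U := by
    rintro u ⟨⟨a, ha, rfl⟩, hu⟩
    refine ⟨⟨F a, hA a ha, (hG a).symm⟩, ?_⟩
    have hu' : (G ^ m) (B.mkQ a) = β • B.mkQ a := by
      have : (G ^ m - β • (1 : Module.End Ω (V ⧸ B))) (B.mkQ a) = 0 := hu
      rwa [LinearMap.sub_apply, LinearMap.smul_apply, Module.End.one_apply, sub_eq_zero] at this
    show (G ^ m - β • (1 : Module.End Ω (V ⧸ B))) (G (B.mkQ a)) = 0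
    rw [LinearMap.sub_apply, LinearMap.smul_apply, Module.End.one_apply,
      ← Module.End.mul_apply (G ^ m) G, ← pow_succ, pow_succ', Module.End.mul_apply, hu', map_smul,
      sub_self]
  have hyU : B.mkQ y ∈ U := by
    refine ⟨⟨y, hy, rfl⟩, ?_⟩
    show (G ^ m - β • (1 : Module.End Ω (V ⧸ B))) (B.mkQ y) = 0
    rw [LinearMap.sub_apply, LinearMap.smul_apply, Module.End.one_apply, hGp, ← map_smul,
      ← map_sub]
    exact (Submodule.Quotient.mk_eq_zero B).2 h
  have hy0 : B.mkQ y ≠ 0 := fun h0 => hyB ((Submodule.Quotient.mk_eq_zero B).1 h0)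
  have : Nontrivial U := ⟨⟨⟨B.mkQ y, hyU⟩, 0, fun h0 => hy0 (congrArg Subtype.val h0)⟩⟩
  obtain ⟨γ, hγ⟩ := Module.End.exists_eigenvalue (G.restrict hU)
  obtain ⟨⟨u, hu⟩, hu2⟩ := hγ.exists_hasEigenvector
  have hu1 : G u = γ • u := congrArg Subtype.val hu2.apply_eq_smul
  have hune : u ≠ 0 := fun h0 => hu2.2 (Subtype.ext h0)
  obtain ⟨⟨z, hz, rfl⟩, hu3⟩ := hu
  refine ⟨γ, z, ?_, hz, fun h0 => hune ((Submodule.Quotient.mk_eq_zero B).2 h0), ?_⟩
  · have hk : ∀ k : ℕ, (G ^ k) (B.mkQ z) = γ ^ k • B.mkQ z := by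
      intro k
      induction k with
      | zero => simp
      | succ k ih => rw [pow_succ', Module.End.mul_apply, ih, map_smul, hu1, smul_smul, ← pow_succ]
    have h3 : (G ^ m) (B.mkQ z) = β • B.mkQ z := by
      have : (G ^ m - β • (1 : Module.End Ω (V ⧸ B))) (B.mkQ z) = 0 := hu3
      rwa [LinearMap.sub_apply, LinearMap.smul_apply, Module.End.one_apply, sub_eq_zero] at this
    rw [hk] at h3
    have h4 : (γ ^ m - β) • B.mkQ z = 0 := by rw [sub_smul, h3, sub_self]
    rcases smul_eq_zero.1 h4 with h5 | h5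
    · exact sub_eq_zero.1 h5
    · exact absurd h5 hune
  · apply (Submodule.Quotient.mk_eq_zero B).1
    show B.mkQ (F z - γ • z) = 0
    rw [map_sub, map_smul, ← hG, hu1, sub_self]

/-- The exponential acts trivially on the graded pieces of the monodromy filtration. -/
lemma expAt_sub_mem {N : Module.End Ω V} {M : ℤ → Submodule Ω V} (h : IsMonodromyFiltration N M)
    (t : Ω) {s : ℤ} {x : V} (hx : x ∈ M s) : expAt N t x - x ∈ M (s - 1) := by
  have hp : ∀ i : ℕ, (N ^ (i + 1)) x ∈ M (s - 1) := by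
    intro i
    have := h.on.pow_map (i + 1) s x hx
    exact h.mono (by push_cast; omega) this
  have e : expAt N t x - x =
      ∑ i ∈ Finset.range (finrank Ω V), (((i + 1).factorial : Ω)⁻¹ * t ^ (i + 1)) •
        (N ^ (i + 1)) x := by
    unfold expAt
    rw [Finset.sum_range_succ', LinearMap.add_apply, LinearMap.sum_apply]
    simp
  rw [e]
  exact Submodule.sum_mem _ fun i _ => Submodule.smul_mem _ _ (hp i)

end

section

variable {Ω : Type u} [Field Ω] [CharZero Ω] [IsAlgClosed Ω] {W : Type} [Group W]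

open Multiplicative

/-- **From the Frobenius of a dominating variety to the Weil group.** -/
theorem isPureRep_of_dominated {m : ℤ} {deg : W →* Multiplicative ℤ} {q f : ℕ}
    {V' : Type v} [AddCommGroup V'] [Module Ω V'] {F N' : Module.End Ω V'}
    (R : WeilRep.{u, v} Ω deg q) (D : Domination R f F N') (hq0 : q ≠ 0)
    (hX : IsMWPure (q ^ f) m F N') : R.IsPure m := by
  obtain ⟨M', hM', -, hwt⟩ := hX
  have hf := D.extension.pos
  have hq : (q : Ω) ≠ 0 := Nat.cast_ne_zero.2 hq0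
  have hqf : ((q ^ f : ℕ) : Ω) ≠ 0 := Nat.cast_ne_zero.2 (pow_ne_zero _ hq0)
  have := D.model.finite
  have hc := D.monodromy.ne
  -- the monodromy filtration of `N`
  set M := monFil R.N with hMdef
  have hM : IsMonodromyFiltration R.N M := isMonodromyFiltration_monFil R.isWeilRep.nilpotent
  have hi : ∀ s x, x ∈ M s → D.i x ∈ M' s := fun s x hx =>
    functorial' hM hM' D.i hc (fun x => D.monodromy.pull x) s hx
  have hr : ∀ s x, x ∈ M' s → D.r x ∈ M s := fun s x hx =>
    functorial' hM' hM D.r (inv_ne_zero hc) (fun x => by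
      rw [D.monodromy.push, smul_smul, inv_mul_cancel₀ hc, one_smul]) s hx
  have hstab : ∀ g s x, x ∈ M s → R.ρ g x ∈ M s := fun g s x hx =>
    functorial' hM hM (R.ρ g) (zpow_ne_zero _ hq) (fun x => R.isWeilRep.comm g x) s hx
  have hstab' : ∀ g s x, x ∈ M' s → D.ρ' g x ∈ M' s := fun g s x hx =>
    functorial' hM' hM' (D.ρ' g) (zpow_ne_zero _ hqf) (fun x => D.model.comm g x) s hx
  refine ⟨M, hM, hstab, fun g s α x hx hx1 hα => ?_⟩
  obtain ⟨j, hj, -, g', hg'⟩ := Subgroup.exists_pow_mem_of_index_ne_zero D.extension.index g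
  -- the power of `g`
  have hpow : ∀ j : ℕ, R.ρ (g ^ j) x - α ^ j • x ∈ M (s - 1) := by
    intro j
    induction j with
    | zero =>
      rw [pow_zero, pow_zero, map_one, Module.End.one_apply, one_smul, sub_self]
      exact Submodule.zero_mem _
    | succ j ih =>
      have e : R.ρ (g ^ (j + 1)) x - α ^ (j + 1) • x =
          R.ρ g (R.ρ (g ^ j) x - α ^ j • x) + α ^ j • (R.ρ g x - α • x) := by
        rw [pow_succ' g, map_mul, Module.End.mul_apply, map_sub, map_smul, smul_sub, smul_smul,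
          ← pow_succ]
        abel
      rw [e]
      exact Submodule.add_mem _ (hstab g _ _ ih) (Submodule.smul_mem _ _ hα)
  set y := D.i x with hy
  have hyM : y ∈ M' s := hi s x hx
  have hyM1 : y ∉ M' (s - 1) := by
    intro h0
    have := hr _ _ h0
    rw [hy, D.summand.retract] at this
    exact hx1 this
  have h1 : D.ρ' g' y - α ^ j • y ∈ M' (s - 1) := by
    have h2 := hi _ _ (hpow j)
    rwa [map_sub, map_smul, ← hg', D.summand.pull] at h2
  -- the Frobenius
  obtain ⟨Φ, hΦ, hΦρ⟩ := D.model.frob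
  obtain ⟨t, ht⟩ := D.model.inertia
  set b : ℤ := toAdd (D.deg' g') with hb
  set ι : D.W' := Φ ^ (-b) * g' with hι
  have hιk : ι ∈ D.deg'.ker := by
    rw [MonoidHom.mem_ker, hι, map_mul, map_zpow, hΦ]
    apply toAdd.injective
    rw [toAdd_mul, toAdd_zpow, toAdd_ofAdd, ← hb, toAdd_one]
    simp
  have hg2 : g' = Φ ^ b * ι := by rw [hι, ← mul_assoc, ← zpow_add, add_neg_cancel, zpow_zero,
    one_mul]
  have h3 : D.ρ' (Φ ^ b) y - α ^ j • y ∈ M' (s - 1) := by
    have h4 : D.ρ' ι y - y ∈ M' (s - 1) := by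
      have h5 := ht ⟨ι, hιk⟩
      have h6 : D.ρ' ι = expAt N' (toAdd (t ⟨ι, hιk⟩)) := h5
      rw [h6]
      exact expAt_sub_mem hM' _ hyM
    have e : D.ρ' (Φ ^ b) y - α ^ j • y =
        (D.ρ' g' y - α ^ j • y) - D.ρ' (Φ ^ b) (D.ρ' ι y - y) := by
      rw [hg2, map_mul, Module.End.mul_apply, map_sub]
      abel
    rw [e]
    exact Submodule.sub_mem _ h1 (hstab' _ _ _ h4)
  have hαj : α ^ j ≠ 0 := by
    intro h0
    rw [h0, zero_smul, sub_zero] at h3
    have h4 := hstab' (Φ ^ (-b)) _ _ h3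
    rw [← Module.End.mul_apply, ← map_mul, ← zpow_add, neg_add_cancel, zpow_zero, map_one,
      Module.End.one_apply] at h4
    exact hyM1 h4
  have hdeg : (j : ℤ) * toAdd (deg g) = f * b := by
    have h4 : toAdd (deg (D.φ g')) = toAdd (deg (g ^ j)) := by rw [hg']
    rw [D.extension.degree, toAdd_pow, map_pow, toAdd_pow, ← hb] at h4
    simp only [nsmul_eq_mul] at h4
    exact h4.symm
  -- the Weil number
  have key : ∀ (l : ℕ) (β : Ω), (F ^ l) y - β • y ∈ M' (s - 1) →
      IsWeilNumber q (f * (l * (s + m))) β := by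
    intro l β hβ
    obtain ⟨γ, z, hγ, hz, hz1, hz2⟩ := exists_root_eigen F (fun x hx => by
        rw [← hΦρ]
        exact hstab' Φ _ _ hx) (fun x hx => by
        rw [← hΦρ]
        exact hstab' Φ _ _ hx) l hyM hyM1 hβ
    have h5 := hwt s γ z hz hz1 hz2
    have h6 := (h5.pow l).of_pow_base
    rwa [hγ] at h6
  have hfin : IsWeilNumber q (j * ((m + s) * toAdd (deg g))) (α ^ j) := by
    have e0 : (j : ℤ) * ((m + s) * toAdd (deg g)) = f * (b * (s + m)) := by
      calc (j : ℤ) * ((m + s) * toAdd (deg g)) = (m + s) * (j * toAdd (deg g)) := by ring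
        _ = (m + s) * (f * b) := by rw [hdeg]
        _ = f * (b * (s + m)) := by ring
    rw [e0]
    rcases le_total 0 b with hb0 | hb0
    · obtain ⟨l, hl⟩ := Int.eq_ofNat_of_zero_le hb0
      rw [hl] at h3 ⊢
      apply key l
      rwa [zpow_natCast, map_pow, hΦρ] at h3
    · obtain ⟨l, hl⟩ := Int.eq_ofNat_of_zero_le (show 0 ≤ -b by omega)
      have hbm : b = -(l : ℤ) := by omega
      have h4 : (F ^ l) y - (α ^ j)⁻¹ • y ∈ M' (s - 1) := by
        have h5 := hstab' (Φ ^ (l : ℤ)) _ _ h3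
        rw [map_sub, map_smul, ← Module.End.mul_apply, ← map_mul, ← zpow_add, hbm,
          add_neg_cancel, zpow_zero, map_one, Module.End.one_apply, zpow_natCast, map_pow,
          hΦρ] at h5
        have h6 := Submodule.smul_mem _ (-(α ^ j)⁻¹) h5
        have e : -(α ^ j)⁻¹ • (y - α ^ j • (F ^ l) y) = (F ^ l) y - (α ^ j)⁻¹ • y := by
          rw [smul_sub, smul_smul, neg_mul, inv_mul_cancel₀ hαj, neg_smul, neg_smul, one_smul]
          abel
        rwa [e] at h6
      have h5 := (key l _ h4).inv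
      rw [inv_inv] at h5
      rw [hbm]
      have e : -((f : ℤ) * (l * (s + m))) = f * (-l * (s + m)) := by ring
      rwa [e] at h5
  exact hfin.of_pow hj

end

end Run7.h615.WL
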