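import Pool.Agent.Run7.h615.WL.Defs
import Pool.Agent.X302.MW.Fin
import Pool.Agent.Helper60K9.KL.Mid

/-!
# The critical algebraic classes are coboundaries
-/

set_option autoImplicit false

namespace Run7.h615.WL

universe u v

open Module Pool.Agent.Y143 Pool.Agent.X302.MW Pool.Agent.Helper60K9.KL

variable {Ω : Type u} [Field Ω] [CharZero Ω] {Γ : Type} {n q : ℕ}

section strata

variable (X : SpecialFibre.{u, v} Ω Γ n q)

/-- The Lefschetz operator is injective below the middle degree. -/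
lemma lef_inj_below (a w : ℕ) (hw : a + 1 + w ≤ n) {x : X.H a} (hx : x ∈ X.gr a w)
    (h : X.lef a x = 0) : x = 0 := by
  apply X.lef_inj a (n - a - w) x (by
    rwa [show (n : ℤ) - a - ((n - a - w : ℕ) : ℤ) = w by omega])
  obtain ⟨s, hs⟩ : ∃ s, n - a - w = s + 1 := ⟨n - a - w - 1, by omega⟩
  rw [hs, pow_succ, Module.End.mul_apply, h, map_zero]

/-- A class generated as in `GeneratedBy` whose restriction has Gysin image zero has the same
restriction as an element of `S`. -/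
lemma exists_low {a w : ℕ} {G S : Submodule Ω (X.H a)}
    (h : GeneratedBy G (X.gr a w) S (X.res a) (formL X (a + 1) (n - a - 1 - w))) {y : X.H a}
    (hy : y ∈ G) (hG : X.gys a (X.res a y) = 0) :
    ∃ s ∈ S, X.res a s = X.res a y := by
  obtain ⟨T, -, hle, horth, hnd⟩ := h
  obtain ⟨s, hs, t, ht, rfl⟩ := Submodule.mem_sup.1 (hle hy)
  have hF : ∀ u v : X.H (a + 1), ev (formL X (a + 1) (n - a - 1 - w)) u v =
      X.pair (a + 1) u ((X.lef (a + 1) ^ (n - a - 1 - w)) v) := fun u v => rfl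
  have hrt : X.res a t = 0 := by
    apply hnd t ht
    intro t' ht'
    have h1 : ev (formL X (a + 1) (n - a - 1 - w)) (X.res a (s + t)) (X.res a t') = 0 := by
      rw [hF, ← res_lef_pow, ← X.pair_gys, hG, map_zero, LinearMap.zero_apply]
    have h2 := horth s hs t' ht'
    rw [hF] at h1 h2 ⊢
    rw [map_add, map_add, LinearMap.add_apply, h2, zero_add] at h1
    exact h1
  exact ⟨s, hs, by rw [map_add, hrt, add_zero]⟩

/-- The class `single (a + 1) (ρ z)` in the column `-(a + 1)`, if the Gysin image of `ρ z` is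
zero. -/
lemma single_crit (a m : ℕ) {w : ℤ} (hw : w = n - m - ((a : ℤ) + 1)) {z : X.H a}
    (hz : z ∈ X.gr a w) (hG : X.gys a (X.res a z) = 0) :
    (Pi.single (a + 1) (X.res a z) : X.C) ∈
      Zc X.diff X.tot (-((a : ℤ) + 1)) (-m) ⊓ Bd X.diff X.tot ((a : ℤ) + 1) (-m) := by
  refine ⟨⟨?_, ?_⟩, ?_⟩
  · apply X.single_mem
    · have := inCol_neg_self (a + 1)
      rwa [show ((a + 1 : ℕ) : ℤ) = (a : ℤ) + 1 by push_cast; ring] at this
    · rw [show (n : ℤ) + -(m : ℤ) - -((a : ℤ) + 1) + -((a : ℤ) + 1) - ((a + 1 : ℕ) : ℤ) = w by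
        rw [hw]; push_cast; ring]
      exact X.res_gr a _ _ hz
  · exact diff_single_neg_apply X a _ hG (X.res_res a z)
  · refine ⟨Pi.single a z, ?_, by rw [show (a : ℤ) + 1 - 1 = a by ring, diff_single_pos]⟩
    rw [show (a : ℤ) + 1 - 1 = a by ring]
    apply X.single_mem (inCol_self a)
    rwa [show (n : ℤ) + (-(m : ℤ) - 1) - (a : ℤ) + a - a = w by rw [hw]; ring]

/-- A Gysin image of a class `v` with restriction zero is a coboundary. -/
lemma single_mem_cob' (a : ℕ) (w : ℤ) {v : X.H (a + 2)} (hv : v ∈ X.gr (a + 2) (w - 2))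
    (hR : X.res (a + 2) v = 0) :
    (Pi.single (a + 1) (X.gys (a + 1) v) : X.C) ∈
      X.coboundaries (-((a : ℤ) + 1)) (w + 2 * ((a : ℤ) + 1)) := by
  classical
  refine ⟨Pi.single (a + 2) v, ?_, ?_⟩
  · apply X.single_mem
    · refine ⟨?_, ?_⟩
      · rw [show -((a : ℤ) + 1) - 1 = -((a : ℤ) + 2) by ring, abs_neg,
          abs_of_nonneg (by positivity)]
        push_cast
        rfl
      · refine ⟨(a : ℤ) + 2, by push_cast; ring⟩
    · rwa [show w + 2 * ((a : ℤ) + 1) + (-((a : ℤ) + 1) - 1) - ((a + 2 : ℕ) : ℤ) = w - 2 by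
        push_cast; ring]
  · funext b
    rw [X.diff_apply, show -((a : ℤ) + 1) - 1 + 1 = -((a : ℤ) + 1) by ring, X.cut_neg]
    by_cases hc : InColumn ((a : ℤ) + 1) b
    · rw [X.cut_of hc, Pi.add_apply, X.gysC_apply]
      have hab : a + 1 ≤ b := by
        have := hc.1
        rw [abs_of_nonneg (by positivity)] at this
        exact_mod_cast this
      obtain ⟨b', rfl⟩ : ∃ b', b = b' + 1 := ⟨b - 1, by omega⟩
      rw [X.resC_succ]
      by_cases hb : b' = a
      · subst hb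
        rw [Pi.single_eq_of_ne (by omega), map_zero, zero_add, Pi.single_eq_same,
          Pi.single_eq_same]
      · by_cases hb2 : b' = a + 2
        · subst hb2
          rw [Pi.single_eq_same, hR, zero_add, Pi.single_eq_of_ne (by omega), map_zero,
            Pi.single_eq_of_ne (by omega)]
        · rw [Pi.single_eq_of_ne hb2, map_zero, zero_add, Pi.single_eq_of_ne (by omega), map_zero,
            Pi.single_eq_of_ne (by omega)]
    · rw [X.cut_of_not hc, Pi.single_eq_of_ne]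
      rintro rfl
      exact hc (inCol_succ_self a)

end strata

/-- A linear form vanishing on the right radical of a bilinear form is represented. -/
lemma exists_repr_radical {E : Type*} [AddCommGroup E] [Module Ω E] (V : Submodule Ω E)
    [FiniteDimensional Ω V] (Q : E →ₗ[Ω] E →ₗ[Ω] Ω) (φ : E →ₗ[Ω] Ω)
    (h : ∀ k ∈ V, (∀ b ∈ V, Q b k = 0) → φ k = 0) :
    ∃ b ∈ V, ∀ k ∈ V, Q b k = φ k := by
  let f : V →ₗ[Ω] Dual Ω V := (V.subtype.dualMap ∘ₗ Q ∘ₗ V.subtype)
  have hf : ∀ b k : V, f b k = Q b k := fun b k => rfl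
  let g : V →ₗ[Ω] Dual Ω V := f.flip
  have h1 : (φ ∘ₗ V.subtype) ∈ LinearMap.range g.dualMap := by
    rw [LinearMap.range_dualMap_eq_dualAnnihilator_ker, Submodule.mem_dualAnnihilator]
    intro k hk
    apply h k k.2
    intro b hb
    have h2 := LinearMap.congr_fun hk ⟨b, hb⟩
    exact h2
  obtain ⟨ξ, hξ⟩ := h1
  obtain ⟨b, hb⟩ := (Module.evalEquiv Ω V).surjective ξ
  refine ⟨b, b.2, fun k hk => ?_⟩
  have h3 := LinearMap.congr_fun hξ ⟨k, hk⟩
  rw [← hb] at h3
  exact h3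

section classes

variable {X : SpecialFibre.{u, v} Ω Γ n q} (C : CycleClasses X)
include C

lemma CycleClasses.le {a c : ℕ} {x : X.H a} (hx : x ∈ C.Z a c) : x ∈ X.gr a (2 * (c : ℤ)) :=
  (C.group a c).le x hx

lemma CycleClasses.res_mem (a c : ℕ) (x : X.H a) (hx : x ∈ C.Z a c) :
    X.res a x ∈ C.Z (a + 1) c := (C.preserves a).res c x hx

lemma CycleClasses.gys_mem (a c : ℕ) (x : X.H (a + 1)) (hx : x ∈ C.Z (a + 1) c) :
    X.gys a x ∈ C.Z a (c + 1) := (C.preserves a).gys c x hx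

lemma CycleClasses.lef_mem (a c : ℕ) (x : X.H a) (hx : x ∈ C.Z a c) :
    X.lef a x ∈ C.Z a (c + 1) := (C.preserves a).lef c x hx

lemma CycleClasses.int {a c : ℕ} (h : 2 * c ≤ n - a) {x y : X.H a} (hx : x ∈ C.Z a c)
    (hy : y ∈ C.Z a c) : ∃ k : ℤ, X.pair a x ((X.lef a ^ (n - a - 2 * c)) y) = k :=
  (C.group a c).int h x hx y hy

/-- The algebraic classes `k` of codimension `c` on `Y^(a+2)` such that the Gysin image of `ρ k` is
primitive have Gysin image zero. -/
lemma gys_res_zero (a c m : ℕ) (hn : n = a + 2 * c + 3 + m)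
    (hHS : C.HodgeStandard (a + 1) (c + 1))
    (hsp : X.gr (a + 1) (2 * (c : ℤ)) ≤ Submodule.span Ω (C.Z (a + 1) c : Set (X.H (a + 1))))
    {k : X.H (a + 1)} (hk : k ∈ X.gr (a + 1) (2 * (c : ℤ)))
    (h : ∀ u ∈ X.gr (a + 1) (2 * (c : ℤ)), X.pair (a + 2) (X.res (a + 1) k)
      ((X.lef (a + 2) ^ (m + 1)) (X.res (a + 1) u)) = 0) :
    X.gys (a + 1) (X.res (a + 1) k) = 0 := by
  obtain ⟨r, ω, z, hω, hz, rfl⟩ := exists_indep_decomp (C.Z (a + 1) c) (hsp hk)
  have h1 : ∀ s, ∀ u ∈ C.Z (a + 1) c, X.pair (a + 2) (X.res (a + 1) (z s))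
      ((X.lef (a + 2) ^ (m + 1)) (X.res (a + 1) u)) = 0 := by
    intro s u hu
    refine eq_zero_of_int hω (fun s => X.pair (a + 2) (X.res (a + 1) (z s))
      ((X.lef (a + 2) ^ (m + 1)) (X.res (a + 1) u))) (fun s => ?_) ?_ s
    · have := C.int (a := a + 2) (c := c) (by omega) (C.res_mem (a + 1) c _ (hz s))
        (C.res_mem (a + 1) c _ hu)
      rwa [show n - (a + 2) - 2 * c = m + 1 by omega] at this
    · have := h u (C.le hu)
      rw [map_sum, map_sum, LinearMap.sum_apply] at this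
      rw [← this]
      apply Finset.sum_congr rfl
      intro s _
      rw [map_smul, map_smul, LinearMap.smul_apply, smul_eq_mul]
  have h2 : ∀ s, ∀ b ∈ X.gr (a + 1) (2 * (c : ℤ)), X.pair (a + 2) (X.res (a + 1) (z s))
      ((X.lef (a + 2) ^ (m + 1)) (X.res (a + 1) b)) = 0 := by
    intro s b hb
    have hf : X.gr (a + 1) (2 * (c : ℤ)) ≤ LinearMap.ker ((X.pair (a + 2)
        (X.res (a + 1) (z s))) ∘ₗ (X.lef (a + 2) ^ (m + 1)) ∘ₗ X.res (a + 1)) :=
      hsp.trans (Submodule.span_le.2 fun u hu => h1 s u hu)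
    exact hf hb
  have key : ∀ s, X.gys (a + 1) (X.res (a + 1) (z s)) = 0 := by
    intro s
    by_contra hne
    have hgA : X.gys (a + 1) (X.res (a + 1) (z s)) ∈ C.Z (a + 1) (c + 1) :=
      C.gys_mem _ _ _ (C.res_mem _ _ _ (hz s))
    have hprim : (X.lef (a + 1) ^ (m + 1)) (X.gys (a + 1) (X.res (a + 1) (z s))) = 0 := by
      apply eq_zero_of_orth X (a + 1) (lef_pow_gr X (a + 1) _ (C.le hgA))
      intro b hb
      have hb0 : b ∈ X.gr (a + 1) (2 * (c : ℤ)) := by
        rwa [show 2 * ((n : ℤ) - ((a + 1 : ℕ) : ℤ)) - (2 * ((c + 1 : ℕ) : ℤ) +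
          2 * ((m + 1 : ℕ) : ℤ)) = 2 * (c : ℤ) by omega] at hb
      rw [lef_pow_pair, X.pair_gys, res_lef_pow]
      exact h2 s b hb0
    have hHS' := hHS _ hgA
    rw [show n - (a + 1) - 2 * (c + 1) = m by omega] at hHS'
    obtain ⟨k, hk, hk'⟩ := hHS' hprim hne
    have h4 : X.pair (a + 1) (X.gys (a + 1) (X.res (a + 1) (z s)))
        ((X.lef (a + 1) ^ m) (X.gys (a + 1) (X.res (a + 1) (z s)))) = 0 := by
      rw [X.pair_gys, res_lef_pow]
      have h5 : X.res (a + 1) (X.gys (a + 1) (X.res (a + 1) (z s))) = 0 := by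
        have := X.res_gys (a + 1) (X.res (a + 1) (z s))
        rwa [X.res_res, map_zero, add_zero] at this
      rw [h5, map_zero, map_zero]
    have h6 : (k : Ω) = 0 := by
      rw [← hk']
      exact h4
    rw [Int.cast_eq_zero] at h6
    rw [h6, mul_zero] at hk
    exact lt_irrefl _ hk
  rw [map_sum, map_sum]
  apply Finset.sum_eq_zero
  intro s _
  rw [map_smul, map_smul, key, smul_zero]

end classes

section lower

variable (X : Degeneration.{u, v} Ω Γ n q)

lemma lefC_pow_apply (m : ℕ) (x : X.C) (b : ℕ) :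
    ((X.lefC ^ m) x) b = (X.lef b ^ m) (x b) := by
  induction m with
  | zero => rfl
  | succ m ih =>
    rw [pow_succ', Module.End.mul_apply, pow_succ', Module.End.mul_apply, ← ih]
    rfl

/-- Orthogonality of the critical classes and of the classes `k` with `τ ρ k = 0`, from the statement
in the lower degrees. -/
lemma orth_of_lower (a c m : ℕ) (hn : n = a + 2 * c + 3 + m)
    (hI : NInj X.diff X.tot ((a : ℤ) + 2) (-m - 1)) (hS : NSurj X.diff X.tot ((a : ℤ) + 1) (-m - 2))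
    {y : X.H a} (hy : y ∈ X.gr a (2 * (c : ℤ) + 2)) (hG : X.gys a (X.res a y) = 0)
    {k : X.H (a + 1)} (hk : k ∈ X.gr (a + 1) (2 * (c : ℤ)))
    (hGk : X.gys (a + 1) (X.res (a + 1) k) = 0) :
    X.pair (a + 1) (X.res a y) ((X.lef (a + 1) ^ (m + 1)) k) = 0 := by
  have hL := X.lefComplex
  have hD := X.toSpecialFibre.lefDual
  -- the class of `ρ k` in the column `-(a + 2)`
  have h1 := single_crit X.toSpecialFibre (a + 1) (m + 1) (w := 2 * (c : ℤ))
    (by push_cast; omega) hk hGk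
  have h2 : (Pi.single (a + 2) (X.res (a + 1) k) : X.C) ∈
      Bd X.diff X.tot (-((a : ℤ) + 2)) (-m - 1) := by
    apply hI
    rwa [show ((a + 1 : ℕ) : ℤ) + 1 = (a : ℤ) + 2 by push_cast; ring,
      show -((m + 1 : ℕ) : ℤ) = -m - 1 by push_cast; ring] at h1
  obtain ⟨v, hv, hvk⟩ := h2
  have hv' : v ∈ X.tot ((a : ℤ) + 1) (-m - 2) := by
    have h3 := hL.incl ((a : ℤ) + 2) (by omega) (-m - 2) v (by
      rw [← hL.neg]
      exact LefComplex.mem_cast _ _ _ _ (by ring) (by ring) hv)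
    exact LefComplex.mem_cast _ _ _ _ (by ring) rfl h3
  have hK : (Pi.single (a + 1) k : X.C) ∈ X.tot ((a : ℤ) + 1) (-m - 2) := by
    apply X.single_mem
    · have := inCol_self (a + 1)
      rwa [show ((a + 1 : ℕ) : ℤ) = (a : ℤ) + 1 by push_cast; ring] at this
    · rwa [show (n : ℤ) + (-(m : ℤ) - 2) - ((a : ℤ) + 1) + ((a : ℤ) + 1) - ((a + 1 : ℕ) : ℤ) =
        2 * (c : ℤ) by push_cast; omega]
  have hκ : (Pi.single (a + 1) k : X.C) - v ∈ Zc X.diff X.tot ((a : ℤ) + 1) (-m - 2) := by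
    refine ⟨Submodule.sub_mem _ hK hv', ?_⟩
    show X.diff ((a : ℤ) + 1) ((Pi.single (a + 1) k : X.C) - v) = 0
    rw [map_sub]
    have e1 : X.diff ((a : ℤ) + 1) (Pi.single (a + 1) k : X.C) =
        Pi.single (a + 2) (X.res (a + 1) k) := by
      have := diff_single_pos X.toSpecialFibre (a + 1) k
      rwa [show ((a + 1 : ℕ) : ℤ) = (a : ℤ) + 1 by push_cast; ring] at this
    have e2 : X.diff ((a : ℤ) + 1) v = X.diff (-((a : ℤ) + 2) - 1) v := by
      rw [hL.dneg ((a : ℤ) + 2), show (a : ℤ) + 2 - 1 = a + 1 by ring]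
    rw [e1, e2, hvk, sub_self]
  obtain ⟨u, hu, u', hu', huu⟩ := Submodule.mem_sup.1 (hS hκ)
  obtain ⟨y', hy', rfl⟩ := hu'
  set x : X.C := Pi.single (a + 1) (X.res a y) with hx
  have hxd : X.diff a (Pi.single a y) = x := diff_single_pos X.toSpecialFibre a y
  have hxd0 : X.diff (-((a : ℤ) + 1)) x = 0 :=
    diff_single_neg_apply X.toSpecialFibre a _ hG (X.res_res a y)
  have ha : a + 1 ≤ n := by omega
  -- the pairing with `u`
  have p1 : X.psi x ((X.lefC ^ (m + 1)) u) = 0 := by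
    rw [← hxd, hD.adj_d a (-m - 1) (Pi.single a y) _ ?_ ?_]
    · rw [show -(a : ℤ) - 1 = -((a : ℤ) + 1) by ring, hL.dLpow, show X.diff (-((a : ℤ) + 1)) u = 0
        from hu.2, map_zero, map_zero]
    · apply X.single_mem (inCol_self a)
      rwa [show (n : ℤ) + (-(m : ℤ) - 1) - (a : ℤ) + (a : ℤ) - (a : ℤ) = 2 * (c : ℤ) + 2 by omega]
    · have := hL.Lpow_mem (m + 1) hu.1
      exact LefComplex.mem_cast _ _ _ _ (by ring) (by push_cast; ring) this
  -- the pairing with `u'`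
  have p2 : X.psi x ((X.lefC ^ (m + 1)) (X.diff ((a : ℤ) + 1 - 1) y')) = 0 := by
    have h3 := hD.adj_d (-((a : ℤ) + 1)) (-m) x ((X.lefC ^ (m + 1)) y') (by
        apply X.single_mem
        · have := inCol_neg_self (a + 1)
          rwa [show ((a + 1 : ℕ) : ℤ) = (a : ℤ) + 1 by push_cast; ring] at this
        · rw [show (n : ℤ) + -(m : ℤ) - -((a : ℤ) + 1) + -((a : ℤ) + 1) - ((a + 1 : ℕ) : ℤ) =
            2 * (c : ℤ) + 2 by push_cast; omega]
          exact X.res_gr a _ _ hy) (by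
        have := hL.Lpow_mem (m + 1) hy'
        exact LefComplex.mem_cast _ _ _ _ (by ring) (by push_cast; ring) this)
    rw [hxd0, map_zero, LinearMap.zero_apply, show -(-((a : ℤ) + 1)) - 1 = (a : ℤ) + 1 - 1 by ring,
      hL.dLpow] at h3
    exact h3.symm
  -- the pairing with `v`
  have p3 : X.psi x ((X.lefC ^ (m + 1)) v) = 0 := by
    rw [hx, X.single_psi _ ha, lefC_pow_apply]
    have hv0 : v (a + 1) = 0 := by
      apply (hv (a + 1)).2
      rintro ⟨h3, -⟩
      rw [show -((a : ℤ) + 2) - 1 = -((a : ℤ) + 3) by ring, abs_neg,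
        abs_of_nonneg (by positivity)] at h3
      push_cast at h3
      omega
    rw [hv0, map_zero, map_zero]
  have p4 : X.psi x ((X.lefC ^ (m + 1)) (Pi.single (a + 1) k)) =
      X.pair (a + 1) (X.res a y) ((X.lef (a + 1) ^ (m + 1)) k) := by
    rw [hx, X.single_psi _ ha, lefC_pow_apply, Pi.single_eq_same]
  rw [← p4]
  have e : (Pi.single (a + 1) k : X.C) = u + X.diff ((a : ℤ) + 1 - 1) y' + v := by
    rw [huu]
    abel
  rw [e, map_add, map_add, map_add, map_add, p1, p2, p3, add_zero, add_zero]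

/-- **The critical algebraic classes.** -/
lemma crit_alg (C : CycleClasses X.toSpecialFibre) (a c m : ℕ) (hn : n = a + 2 * c + 3 + m)
    (hI : NInj X.diff X.tot ((a : ℤ) + 2) (-m - 1)) (hS : NSurj X.diff X.tot ((a : ℤ) + 1) (-m - 2))
    (hHS : C.HodgeStandard (a + 1) (c + 1))
    (hsp : X.gr (a + 1) (2 * (c : ℤ)) ≤ Submodule.span Ω (C.Z (a + 1) c : Set (X.H (a + 1))))
    {y : X.H a} (hyA : y ∈ Submodule.span Ω (C.Z a (c + 1) : Set (X.H a)))
    (hG : X.gys a (X.res a y) = 0) :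
    ∃ b ∈ X.gr (a + 1) (2 * (c : ℤ)), X.res a y = X.gys (a + 1) (X.res (a + 1) b) := by
  have hyg : y ∈ X.gr a (2 * (c : ℤ) + 2) := by
    have h1 : Submodule.span Ω (C.Z a (c + 1) : Set (X.H a)) ≤ X.gr a (2 * (c : ℤ) + 2) := by
      rw [Submodule.span_le]
      intro x hx
      have := C.le hx
      rwa [show 2 * ((c + 1 : ℕ) : ℤ) = 2 * (c : ℤ) + 2 by push_cast; ring] at this
    exact h1 hyA
  -- the form on `H^(2 c)(Y^(a+2))`
  let Q : X.H (a + 1) →ₗ[Ω] X.H (a + 1) →ₗ[Ω] Ω :=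
    (X.pair (a + 2)).compl₁₂ (X.res (a + 1)) ((X.lef (a + 2) ^ (m + 1)) ∘ₗ X.res (a + 1))
  have hQ : ∀ b k, Q b k = X.pair (a + 2) (X.res (a + 1) b)
      ((X.lef (a + 2) ^ (m + 1)) (X.res (a + 1) k)) := fun b k => rfl
  have : FiniteDimensional Ω (X.gr (a + 1) (2 * (c : ℤ))) := inferInstance
  obtain ⟨b0, hb0, hb⟩ := exists_repr_radical (X.gr (a + 1) (2 * (c : ℤ))) Q
    (X.pair (a + 1) (X.res a y) ∘ₗ (X.lef (a + 1) ^ (m + 1))) (fun k hk hkQ => by
      apply orth_of_lower X a c m hn hI hS hyg hG hk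
      apply gys_res_zero C a c m hn hHS hsp hk
      intro u hu
      have h1 := hkQ u hu
      rw [hQ, ← lef_pow_pair] at h1
      rw [X.pair_symm (a + 2) (2 * (c : ℤ) + 2 * ((m + 1 : ℕ) : ℤ)) ((X.lef (a + 2) ^ (m + 1))
        (X.res (a + 1) u)) (X.res (a + 1) k) (lef_pow_gr X.toSpecialFibre (a + 2) _
          (X.res_gr (a + 1) _ _ hu)), h1, mul_zero])
  refine ⟨b0, hb0, ?_⟩
  set z := X.res a y - X.gys (a + 1) (X.res (a + 1) b0) with hz
  have hGz : X.gys a z = 0 := by rw [hz, map_sub, hG, X.gys_gys, sub_zero]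
  have hRz : X.res (a + 1) z = 0 := by
    rw [hz, map_sub, X.res_res, zero_sub]
    have := X.res_gys (a + 1) (X.res (a + 1) b0)
    rw [X.res_res, map_zero, add_zero] at this
    rw [this, neg_zero]
  have hD1 : ∀ b ∈ X.gr (a + 1) (2 * (c : ℤ)),
      X.pair (a + 1) z ((X.lef (a + 1) ^ (m + 1)) b) = 0 := by
    intro b hbb
    have h1 := hb b hbb
    rw [hQ, LinearMap.comp_apply] at h1
    rw [hz, map_sub, LinearMap.sub_apply, ← h1, X.pair_gys, res_lef_pow, sub_self]
  have hD2 : ∀ u, X.pair (a + 1) z ((X.lef (a + 1) ^ m) (X.res a u)) = 0 := by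
    intro u
    rw [← res_lef_pow, ← X.pair_gys, hGz, map_zero, LinearMap.zero_apply]
  have hD3 : ∀ u, X.pair (a + 1) z ((X.lef (a + 1) ^ m) (X.gys (a + 1) u)) = 0 := by
    intro u
    rw [← gys_lef_pow, ← X.pair_res, hRz, map_zero, LinearMap.zero_apply]
  -- the rational decomposition
  obtain ⟨r, ω, p, hω, hp, hyb⟩ : ∃ (r : ℕ) (ω : Fin r → Ω) (p : Fin r → X.H a × X.H (a + 1)),
      LinearIndependent ℚ ω ∧ (∀ s, p s ∈ (C.Z a (c + 1)).prod (C.Z (a + 1) c)) ∧
        (y, b0) = ∑ s, ω s • p s := by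
    apply exists_indep_decomp
    let S : Submodule Ω (X.H a × X.H (a + 1)) := Submodule.span Ω
      (((C.Z a (c + 1)).prod (C.Z (a + 1) c) : AddSubgroup (X.H a × X.H (a + 1))) :
        Set (X.H a × X.H (a + 1)))
    have e1 : Submodule.span Ω (C.Z a (c + 1) : Set (X.H a)) ≤ S.comap (LinearMap.inl Ω _ _) := by
      rw [Submodule.span_le]
      intro x hx
      exact Submodule.subset_span ⟨hx, zero_mem _⟩
    have e2 : Submodule.span Ω (C.Z (a + 1) c : Set (X.H (a + 1))) ≤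
        S.comap (LinearMap.inr Ω _ _) := by
      rw [Submodule.span_le]
      intro x hx
      exact Submodule.subset_span ⟨zero_mem _, hx⟩
    have h1 : ((y, 0) : X.H a × X.H (a + 1)) ∈ S := e1 hyA
    have h2 : ((0, b0) : X.H a × X.H (a + 1)) ∈ S := e2 (hsp hb0)
    have := Submodule.add_mem _ h1 h2
    simpa using this
  let T : X.H a × X.H (a + 1) →ₗ[Ω] X.H (a + 1) :=
    (X.res a).coprod (-(X.gys (a + 1) ∘ₗ X.res (a + 1)))
  have hT : ∀ c, T c = X.res a c.1 - X.gys (a + 1) (X.res (a + 1) c.2) := by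
    intro c
    show X.res a c.1 + -(X.gys (a + 1) (X.res (a + 1) c.2)) = _
    rw [sub_eq_add_neg]
  have hzT : z = ∑ s, ω s • T (p s) := by
    have : z = T (y, b0) := by rw [hT]
    rw [this, hyb, map_sum]
    apply Finset.sum_congr rfl
    intro s _
    rw [map_smul]
  have hTA : ∀ s, T (p s) ∈ C.Z (a + 1) (c + 1) := by
    intro s
    rw [hT]
    exact sub_mem (C.res_mem a _ _ (hp s).1)
      (C.gys_mem (a + 1) _ _ (C.res_mem (a + 1) _ _ (hp s).2))
  -- orthogonality to a class passes to the rational components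
  have hdesc : ∀ u ∈ C.Z (a + 1) (c + 1), X.pair (a + 1) z ((X.lef (a + 1) ^ m) u) = 0 →
      ∀ s, X.pair (a + 1) (T (p s)) ((X.lef (a + 1) ^ m) u) = 0 := by
    intro u hu h s
    refine eq_zero_of_int hω (fun s => X.pair (a + 1) (T (p s)) ((X.lef (a + 1) ^ m) u))
      (fun s => ?_) ?_ s
    · have := C.int (a := a + 1) (c := c + 1) (by omega) (hTA s) hu
      rwa [show n - (a + 1) - 2 * (c + 1) = m by omega] at this
    · rw [hzT, map_sum, LinearMap.sum_apply] at h
      rw [← h]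
      apply Finset.sum_congr rfl
      intro s _
      rw [map_smul, LinearMap.smul_apply, smul_eq_mul]
  have hzero : ∀ s, T (p s) = 0 := by
    intro s
    by_contra hne
    have hprim : (X.lef (a + 1) ^ (m + 1)) (T (p s)) = 0 := by
      apply eq_zero_of_orth X.toSpecialFibre (a + 1)
        (lef_pow_gr X.toSpecialFibre (a + 1) _ (C.le (hTA s)))
      intro b hb
      have hb0 : b ∈ X.gr (a + 1) (2 * (c : ℤ)) := by
        rwa [show 2 * ((n : ℤ) - ((a + 1 : ℕ) : ℤ)) - (2 * ((c + 1 : ℕ) : ℤ) +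
          2 * ((m + 1 : ℕ) : ℤ)) = 2 * (c : ℤ) by omega] at hb
      have hf : X.gr (a + 1) (2 * (c : ℤ)) ≤ LinearMap.ker ((X.pair (a + 1) (T (p s))) ∘ₗ
          (X.lef (a + 1) ^ (m + 1))) := by
        refine hsp.trans (Submodule.span_le.2 fun u hu => ?_)
        show X.pair (a + 1) (T (p s)) ((X.lef (a + 1) ^ (m + 1)) u) = 0
        have h1 := hD1 u (C.le hu)
        rw [pow_succ, Module.End.mul_apply] at h1 ⊢
        exact hdesc _ (C.lef_mem (a + 1) c u hu) h1 s
      have h5 : X.pair (a + 1) (T (p s)) ((X.lef (a + 1) ^ (m + 1)) b) = 0 := hf hb0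
      rw [lef_pow_pair, h5]
    have hHS' := hHS _ (hTA s)
    rw [show n - (a + 1) - 2 * (c + 1) = m by omega] at hHS'
    obtain ⟨k, hk, hk'⟩ := hHS' hprim hne
    have h4 : X.pair (a + 1) (T (p s)) ((X.lef (a + 1) ^ m) (T (p s))) = 0 := by
      have g1 := hdesc _ (C.res_mem a _ _ (hp s).1) (hD2 _) s
      have g2 := hdesc _ (C.gys_mem (a + 1) _ _ (C.res_mem (a + 1) _ _ (hp s).2)) (hD3 _) s
      have g3 : X.pair (a + 1) (T (p s)) ((X.lef (a + 1) ^ m)
          (X.res a (p s).1 - X.gys (a + 1) (X.res (a + 1) (p s).2))) = 0 := by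
        rw [map_sub, map_sub, g1, g2, sub_zero]
      rw [← hT (p s)] at g3
      exact g3
    have h6 : (k : Ω) = 0 := by
      rw [← hk']
      exact h4
    rw [Int.cast_eq_zero] at h6
    rw [h6, mul_zero] at hk
    exact lt_irrefl _ hk
  have hz0 : z = 0 := by
    rw [hzT]
    apply Finset.sum_eq_zero
    intro s _
    rw [hzero, smul_zero]
  exact sub_eq_zero.1 hz0

end lower

end Run7.h615.WL
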