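import Pool.Agent.Run7.h615.WL.LogDefs
import Pool.Agent.Run7.h615.WL.Alg
import Pool.Agent.Helper60K9.KL.Mid

/-!
# Low degrees without the hard Lefschetz theorem for the generic fibre
-/

set_option autoImplicit false

namespace Run7.h615.WL

universe u v

open Module Pool.Agent.Y143 Pool.Agent.X302.MW Pool.Agent.Helper60K9.KL

variable {Ω : Type u} [Field Ω] [CharZero Ω] {Γ : Type} {n q : ℕ}

section fibre

variable (X : SpecialFibre.{u, v} Ω Γ n q)

/-- The critical classes which are multiples of `L` are coboundaries. -/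
lemma cob_of_generated (a m w : ℕ) (hn : a + 1 + w ≤ n) (hw : (w : ℤ) = n - m - ((a : ℤ) + 1))
    (hI : NInj X.diff X.tot ((a : ℤ) + 1) (-((m + 2 : ℕ) : ℤ)))
    (h : AllGenerated X a w ((X.gr a ((w : ℤ) - 2)).map (X.lef a))) {y : X.H a}
    (hy : y ∈ X.gr a w) (hG : X.gys a (X.res a y) = 0) :
    (Pi.single (a + 1) (X.res a y) : X.C) ∈
      X.coboundaries (-((a : ℤ) + 1)) (w + 2 * ((a : ℤ) + 1)) := by
  obtain ⟨s, hs, hsy⟩ := exists_low X h hy hG
  rw [← hsy] at hG ⊢
  obtain ⟨z, hz, rfl⟩ := hs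
  have hGz : X.gys a (X.res a z) = 0 := by
    have h1 : X.lef a (X.gys a (X.res a z)) = 0 := by
      rw [← X.gys_lef, ← X.res_lef]
      exact hG
    have h2 : X.gys a (X.res a z) ∈ X.gr a w := by
      have := X.gys_gr a _ _ (X.res_gr a _ _ hz)
      rwa [show (w : ℤ) - 2 + 2 = w by ring] at this
    exact lef_inj_below X a w hn h2 h1
  have h3 := single_crit X a (m + 2) (w := (w : ℤ) - 2) (by push_cast; omega) hz hGz
  have h4 := hI h3
  rw [X.bd_eq] at h4
  obtain ⟨u, hu, huz⟩ := h4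
  refine ⟨X.lefC u, ?_, ?_⟩
  · have := X.lefC_mem hu
    exact X.mem_E₁_cast rfl (by push_cast; omega) this
  · rw [X.diff_lefC, huz]
    funext b
    show X.lef b ((Pi.single (a + 1) (X.res a z) : X.C) b) = _
    by_cases hb : b = a + 1
    · subst hb
      rw [Pi.single_eq_same, Pi.single_eq_same, X.res_lef]
    · rw [Pi.single_eq_of_ne hb, Pi.single_eq_of_ne hb, map_zero]

/-- Injectivity of `N ^ (a + 1)` on the `E_2` term in total degree `n - m`. -/
lemma nInj_low (A : DivisorClasses X) (a K : ℕ) (h : ∀ w : ℕ, 2 ≤ w → a + 1 + w ≤ K → LowAt A a w)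
    (m : ℕ) (hm : n ≤ K + m) : NInj X.diff X.tot ((a : ℤ) + 1) (-(m : ℤ)) := by
  -- induction on the weight
  have key : ∀ (w m : ℕ), (n : ℤ) ≤ K + m → (w : ℤ) = n - m - ((a : ℤ) + 1) →
      NInj X.diff X.tot ((a : ℤ) + 1) (-(m : ℤ)) := by
    intro w
    induction w using Nat.strong_induction_on with
    | _ w ih =>
      intro m hm hw
      have hn : a + 1 + w ≤ n := by omega
      obtain ⟨k, hk⟩ : ∃ k : ℕ, k + m = n := ⟨n - m, by omega⟩
      have hkm : (k : ℤ) - n = -(m : ℤ) := by omega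
      have hkw : (k : ℤ) - ((a : ℤ) + 1) = w := by omega
      rw [← hkm]
      apply nInj_of
      intro y hy hG
      rw [hkw] at hy
      have goal : (Pi.single (a + 1) (X.res a y) : X.C) ∈
          X.coboundaries (-((a : ℤ) + 1)) (w + 2 * ((a : ℤ) + 1)) := by
        rcases Nat.lt_or_ge w 2 with h2 | h2
        · rcases (show w = 0 ∨ w = 1 by omega) with rfl | rfl
          · rw [crit0 A a hy hG, Pi.single_zero]
            exact Submodule.zero_mem _
          · rw [crit1 A a hy hG, Pi.single_zero]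
            exact Submodule.zero_mem _
        · rcases h w h2 (by omega) with ⟨rfl, hg⟩ | ⟨h3, hg⟩
          · obtain ⟨s, hs, hsy⟩ := exists_low X hg hy hG
            rw [← hsy] at hG ⊢
            obtain ⟨v, hv, hR, hz⟩ := crit2 A a (by omega) hs hG
            rw [hz]
            exact single_mem_cob' X a _ (by simpa using hv) hR
          · refine cob_of_generated X a m w hn hw ?_ hg hy hG
            exact ih (w - 2) (by omega) (m + 2) (by push_cast; omega) (by push_cast; omega)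
      rwa [show (w : ℤ) + 2 * ((a : ℤ) + 1) = (k : ℤ) + ((a : ℤ) + 1) by omega] at goal
  rcases Nat.lt_or_ge n (m + (a + 1)) with h1 | h1
  · rcases Nat.lt_or_ge n m with h2 | h2
    · -- the degree is negative
      rintro x ⟨hx1, -⟩
      have h3 := hx1.1
      have h4 : X.tot (-((a : ℤ) + 1)) (-(m : ℤ)) = ⊥ := by
        apply X.tot_bdd
        right
        rw [abs_neg, Nat.abs_cast]
        exact_mod_cast h2
      rw [h4] at h3
      rw [show x = 0 from h3]
      exact Submodule.zero_mem _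
    · obtain ⟨k, hk⟩ : ∃ k : ℕ, k + m = n := ⟨n - m, by omega⟩
      have := nInj_triv X (a + 1) k (Or.inl (by omega))
      rwa [show (k : ℤ) - n = -(m : ℤ) by omega,
        show ((a + 1 : ℕ) : ℤ) = (a : ℤ) + 1 by push_cast; ring] at this
  · exact key (n - m - (a + 1)) m (by omega) (by omega)

end fibre

section generic

variable (X : SemistableModel.{u, v} Ω Γ n q)

lemma grInj_low (A : DivisorClasses X.toSpecialFibre) (k : ℕ)
    (h : ∀ a w : ℕ, 2 ≤ w → a + 1 + w ≤ k → LowAt A a w) (m : ℕ) (hm : m ≤ k) (hn : m ≤ n)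
    (e : ℕ) : GrInj X m e := by
  rcases Nat.eq_zero_or_pos e with rfl | he
  · intro v _ hv2
    have h1 : v ∈ X.W m ((m : ℤ) - ((0 : ℕ) : ℤ) - 1) := hv2
    exact X.W_cast (by push_cast; ring) h1
  · obtain ⟨a, rfl⟩ : ∃ a, e = a + 1 := ⟨e - 1, by omega⟩
    rw [grInj_iff]
    have := nInj_low X.toSpecialFibre A a m (fun w h2 h3 => h a w h2 (by omega)) (n - m) (by omega)
    rwa [show -((n - m : ℕ) : ℤ) = (m : ℤ) - n by omega,
      show (a : ℤ) + 1 = ((a + 1 : ℕ) : ℤ) by push_cast; ring] at this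

omit [CharZero Ω] in
/-- A map which is injective on a quotient of the same dimension is surjective. -/
lemma surj_of_dim {V : Type*} [AddCommGroup V] [Module Ω V] [FiniteDimensional Ω V]
    (f : Module.End Ω V) {A U A' U' : Submodule Ω V} (hU : U ≤ A) (hU' : U' ≤ A')
    (hf : ∀ x ∈ A, f x ∈ A') (hfU : ∀ x ∈ U, f x ∈ U') (hinj : ∀ x ∈ A, f x ∈ U' → x ∈ U)
    (hd : (finrank Ω A : ℤ) - finrank Ω U = finrank Ω A' - finrank Ω U') (y : V) (hy : y ∈ A') :
    ∃ x ∈ A, y - f x ∈ U' := by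
  have h1 := finrank_map_add_ker (U'.mkQ ∘ₗ f) A
  have h2 : A ⊓ LinearMap.ker (U'.mkQ ∘ₗ f) = U := by
    ext x
    simp only [Submodule.mem_inf, LinearMap.mem_ker, LinearMap.comp_apply, Submodule.mkQ_apply,
      Submodule.Quotient.mk_eq_zero]
    exact ⟨fun ⟨h1, h2⟩ => hinj x h1 h2, fun h => ⟨hU h, hfU x h⟩⟩
  have h3 := finrank_map_add_ker U'.mkQ A'
  have h4 : A' ⊓ LinearMap.ker U'.mkQ = U' := by
    rw [Submodule.ker_mkQ]
    exact inf_eq_right.2 hU'
  rw [h2] at h1
  rw [h4] at h3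
  have h5 : A.map (U'.mkQ ∘ₗ f) ≤ A'.map U'.mkQ := by
    rintro _ ⟨x, hx, rfl⟩
    exact ⟨f x, hf x hx, rfl⟩
  have h6 : A.map (U'.mkQ ∘ₗ f) = A'.map U'.mkQ := by
    apply Submodule.eq_of_le_of_finrank_le h5
    omega
  have h7 : U'.mkQ y ∈ A.map (U'.mkQ ∘ₗ f) := by
    rw [h6]
    exact ⟨y, hy, rfl⟩
  obtain ⟨x, hx, hxy⟩ := h7
  exact ⟨x, hx, (Submodule.Quotient.eq _).1 hxy.symm⟩

lemma N_W (m : ℕ) (w : ℤ) {v : X.V m} (hv : v ∈ X.W m w) : X.N m v ∈ X.W m (w - 2) := by
  obtain ⟨x, hx⟩ := X.sp_left m _ v hv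
  exact (X.sp_mem m _ _ _ (X.sp_N m _ _ _ hx)).1

lemma Npow_W (m : ℕ) (e : ℕ) (w : ℤ) {v : X.V m} (hv : v ∈ X.W m w) :
    pw (X.N m) e v ∈ X.W m (w - 2 * e) := by
  unfold pw
  induction e with
  | zero => simpa using hv
  | succ e ih =>
    rw [pow_succ', Module.End.mul_apply]
    exact X.W_cast (by push_cast; ring) (N_W X m _ ih)

lemma W_bot_low (m : ℕ) (w : ℤ) (hw : w < (m : ℤ) - n) : X.W m w = ⊥ := by
  -- all graded pieces of weight `≤ w` vanish
  have hstep : ∀ w' : ℤ, w' < (m : ℤ) - n → X.W m w' ≤ X.W m (w' - 1) := by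
    intro w' hw' v hv
    obtain ⟨x, hx⟩ := X.sp_left m _ v hv
    refine (X.sp_ker m _ _ _ hx).2 ?_
    have h1 := (X.sp_mem m _ _ _ hx).2
    have h2 : x ∈ Zc X.diff X.tot ((m : ℤ) - w') ((m : ℤ) - n) := by
      rw [zc_cyc X m, show (m : ℤ) - ((m : ℤ) - w') = w' by ring]
      exact h1
    have h3 := h2.1
    rw [X.tot_bdd _ _ (Or.inl (by
      have : (n : ℤ) < (m : ℤ) - w' := by omega
      exact lt_of_lt_of_le this (le_abs_self _)))] at h3
    rw [show x = 0 from h3]
    exact Submodule.zero_mem _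
  obtain ⟨w0, hw0⟩ := X.W_bot m
  have key : ∀ k : ℕ, ∀ w' : ℤ, w' < (m : ℤ) - n → X.W m w' ≤ X.W m (w' - k) := by
    intro k
    induction k with
    | zero => intro w' _; simp
    | succ k ih =>
      intro w' hw'
      refine (ih w' hw').trans ?_
      refine (hstep (w' - k) (by omega)).trans (le_of_eq ?_)
      congr 1
      push_cast
      ring
  rw [eq_bot_iff]
  obtain ⟨k, hk⟩ : ∃ k : ℕ, w - k ≤ w0 := ⟨(w - w0).toNat, by omega⟩
  exact ((key k w hw).trans (X.W_mono m hk)).trans (le_of_eq hw0)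

lemma finite_V (m : ℕ) : FiniteDimensional Ω (X.V m) := by
  -- by the graded pieces
  have hstep : ∀ w : ℤ, FiniteDimensional Ω (X.W m (w - 1)) → FiniteDimensional Ω (X.W m w) := by
    intro w hfin
    -- the quotient embeds into a quotient of a finite-dimensional space
    let f : X.W m w → X.C ⧸ (X.coboundaries ((m : ℤ) - w) w) := fun v =>
      Submodule.Quotient.mk (Classical.choose (X.sp_left m w v v.2))
    have hf : ∀ (v : X.W m w) (x : X.C), ((v : X.V m), x) ∈ X.sp m w → f v =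
        Submodule.Quotient.mk x := by
      intro v x hx
      have h1 := Classical.choose_spec (X.sp_left m w v v.2)
      refine (Submodule.Quotient.eq _).2 ?_
      have h2 := Submodule.sub_mem _ h1 hx
      rw [Prod.mk_sub_mk, sub_self] at h2
      exact (X.sp_ker m _ _ _ h2).1 (Submodule.zero_mem _)
    let F : X.W m w →ₗ[Ω] X.C ⧸ (X.coboundaries ((m : ℤ) - w) w) :=
      { toFun := f
        map_add' := fun v v' => by
          obtain ⟨x, hx⟩ := X.sp_left m w v v.2
          obtain ⟨x', hx'⟩ := X.sp_left m w v' v'.2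
          rw [hf v x hx, hf v' x' hx', hf (v + v') (x + x') (by
            have := Submodule.add_mem _ hx hx'
            exact this)]
          rfl
        map_smul' := fun c v => by
          obtain ⟨x, hx⟩ := X.sp_left m w v v.2
          rw [hf v x hx, hf (c • v) (c • x) (by
            have := Submodule.smul_mem _ c hx
            exact this)]
          rfl }
    have hker : LinearMap.ker F = (X.W m (w - 1)).comap (X.W m w).subtype := by
      ext v
      obtain ⟨x, hx⟩ := X.sp_left m w v v.2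
      rw [LinearMap.mem_ker]
      show f v = 0 ↔ _
      rw [hf v x hx]
      exact (Submodule.Quotient.mk_eq_zero _).trans (X.sp_ker m _ _ _ hx).symm
    have h1 : FiniteDimensional Ω (LinearMap.ker F) := by
      rw [hker]
      exact Module.Finite.of_injective
        ((X.W m w).subtype.restrict (p := (X.W m (w - 1)).comap (X.W m w).subtype)
          (q := X.W m (w - 1)) (fun v hv => hv)) (by
          intro v v' h
          have := congrArg Subtype.val h
          exact Subtype.ext (Subtype.ext this))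
    have h2 : FiniteDimensional Ω (LinearMap.range F) := inferInstance
    have := F.quotKerEquivRange
    have h3 : Module.Finite Ω (X.W m w ⧸ LinearMap.ker F) := Module.Finite.equiv this.symm
    exact Module.Finite.of_submodule_quotient (LinearMap.ker F)
  obtain ⟨w1, hw1⟩ := X.W_top m
  have key : ∀ k : ℕ, FiniteDimensional Ω (X.W m ((m : ℤ) - n - 1 + k)) := by
    intro k
    induction k with
    | zero =>
      rw [W_bot_low X m _ (by push_cast; omega)]
      infer_instance
    | succ k ih =>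
      apply hstep
      rwa [show (m : ℤ) - n - 1 + ((k + 1 : ℕ) : ℤ) - 1 = (m : ℤ) - n - 1 + k by push_cast; ring]
  have h1 := key (w1 - ((m : ℤ) - n - 1)).toNat
  have h2 : X.W m ((m : ℤ) - n - 1 + ((w1 - ((m : ℤ) - n - 1)).toNat : ℤ)) = ⊤ := by
    rw [eq_top_iff, ← hw1]
    exact X.W_mono m (by omega)
  rw [h2] at h1
  exact Module.Finite.equiv (Submodule.topEquiv (R := Ω) (M := X.V m))

omit [CharZero Ω] in
/-- A map which is surjective on a quotient of the same dimension is injective. -/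
lemma inj_of_dim {V : Type*} [AddCommGroup V] [Module Ω V] [FiniteDimensional Ω V]
    (f : Module.End Ω V) {A U A' U' : Submodule Ω V} (hU : U ≤ A) (hU' : U' ≤ A')
    (hf : ∀ x ∈ A, f x ∈ A') (hfU : ∀ x ∈ U, f x ∈ U') (hsurj : ∀ y ∈ A', ∃ x ∈ A, y - f x ∈ U')
    (hd : (finrank Ω A : ℤ) - finrank Ω U = finrank Ω A' - finrank Ω U') (x : V) (hx : x ∈ A)
    (hx' : f x ∈ U') : x ∈ U := by
  have h1 := finrank_map_add_ker (U'.mkQ ∘ₗ f) A
  have h2 : U ≤ A ⊓ LinearMap.ker (U'.mkQ ∘ₗ f) :=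
    fun x hx => ⟨hU hx, (Submodule.Quotient.mk_eq_zero _).2 (hfU x hx)⟩
  have h3 := finrank_map_add_ker U'.mkQ A'
  have h4 : A' ⊓ LinearMap.ker U'.mkQ = U' := by
    rw [Submodule.ker_mkQ]
    exact inf_eq_right.2 hU'
  rw [h4] at h3
  have h5 : A.map (U'.mkQ ∘ₗ f) = A'.map U'.mkQ := by
    apply le_antisymm
    · rintro _ ⟨x, hx, rfl⟩
      exact ⟨f x, hf x hx, rfl⟩
    · rintro _ ⟨y, hy, rfl⟩
      obtain ⟨x, hx, hxy⟩ := hsurj y hy
      exact ⟨x, hx, ((Submodule.Quotient.eq _).2 hxy).symm⟩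
  have h6 : U = A ⊓ LinearMap.ker (U'.mkQ ∘ₗ f) := by
    apply Submodule.eq_of_le_of_finrank_le h2
    rw [h5] at h1
    omega
  rw [h6]
  exact ⟨hx, (Submodule.Quotient.mk_eq_zero _).2 hx'⟩

/-- Without the hard Lefschetz theorem the symmetry of the dimensions is sufficient. -/
lemma grIso_of_symmetric (m : ℕ) (hI : (∀ e : ℕ, GrInj X m e) ∨ ∀ e : ℕ, GrSurj X m e)
    (hs : IsSymmetric X m) (e : ℕ) : GrIso X m e := by
  have := finite_V X m
  have h1 : ∀ x ∈ X.W m ((m : ℤ) + e), (X.N m ^ e) x ∈ X.W m ((m : ℤ) - e) := fun x hx =>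
    X.W_cast (by ring) (Npow_W X m e _ hx)
  have h2 : ∀ x ∈ X.W m ((m : ℤ) + e - 1), (X.N m ^ e) x ∈ X.W m ((m : ℤ) - e - 1) :=
    fun x hx => X.W_cast (by ring) (Npow_W X m e _ hx)
  rcases hI with hI | hI
  · exact ⟨hI e, fun v hv => surj_of_dim (X.N m ^ e) (X.W_mono m (by omega))
      (X.W_mono m (by omega)) h1 h2 (hI e) (hs e) v hv⟩
  · exact ⟨fun v hv hN => inj_of_dim (X.N m ^ e) (X.W_mono m (by omega))
      (X.W_mono m (by omega)) h1 h2 (hI e) (hs e) v hv hN, hI e⟩

lemma symmetric_of_kato (m : ℕ) (h : KatoAt X m) : IsSymmetric X m := by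
  intro e
  have := finite_V X m
  rcases Nat.eq_zero_or_pos e with rfl | he
  · simp
  · obtain ⟨h1, h2⟩ := (katoAt_iff X m).1 h e he
    exact finrank_sub_of_iso (X.N m ^ e) (X.W_mono m (by omega)) (X.W_mono m (by omega))
      (fun x hx => X.W_cast (by ring) (Npow_W X m e _ hx))
      (fun x hx => X.W_cast (by ring) (Npow_W X m e _ hx)) h1 h2

/-- `N ^ e` is surjective in the degrees above the middle. -/
lemma grSurj_high (A : DivisorClasses X.toSpecialFibre) (m : ℕ)
    (h : ∀ a w : ℕ, 2 ≤ w → a + 1 + w + m ≤ 2 * n → LowAt A a w) (hn : n ≤ m) (e : ℕ) :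
    GrSurj X m e := by
  rcases Nat.lt_or_ge (2 * n) m with h1 | h1
  · exact (grIso_triv X m e (Or.inr (by omega))).2
  · have := grInj_low X A (2 * n - m) (fun a w h2 h3 => h a w h2 (by omega)) (2 * n - m) le_rfl
      (by omega) e
    exact (grInj_dual X (2 * n - m) m e (by omega)).1 this

/-- **Low degrees without the hard Lefschetz theorem for the generic fibre.** -/
theorem low_degrees (A : DivisorClasses X.toSpecialFibre) (m : ℕ)
    (h : ∀ a w : ℕ, 2 ≤ w → a + 1 + w ≤ m → a + 1 + w + m ≤ 2 * n → LowAt A a w) :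
    (m ≤ n → ∀ e, GrInj X m e) ∧ (n ≤ m → ∀ e, GrSurj X m e) ∧
      (KatoAt X m ↔ IsSymmetric X m) ∧ (m = n → KatoAt X m) := by
  have h1 : m ≤ n → ∀ e, GrInj X m e := fun hm e =>
    grInj_low X A m (fun a w h2 h3 => h a w h2 h3 (by omega)) m le_rfl hm e
  have h2 : n ≤ m → ∀ e, GrSurj X m e := fun hm e =>
    grSurj_high X A m (fun a w h2 h3 => h a w h2 (by omega) h3) hm e
  refine ⟨h1, h2, ⟨symmetric_of_kato X m, fun hs => ?_⟩, fun hm => ?_⟩
  · rw [katoAt_iff]
    intro e _
    apply grIso_of_symmetric X m _ hs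
    rcases le_total m n with h3 | h3
    · exact Or.inl (h1 h3)
    · exact Or.inr (h2 h3)
  · rw [katoAt_iff]
    intro e _
    exact ⟨h1 hm.le e, h2 hm.ge e⟩

/-- From Kato's conjecture to mw purity. -/
lemma isMWPure_of_kato [IsAlgClosed Ω] (m : ℕ) (h : KatoAt X m) :
    IsMWPure q m (X.actV m X.frob) (X.N m) := by
  rw [katoAt_iff] at h
  exact X.isMWPure_of m (fun a ha => (grInj_iff X m a).1 (h a ha).1)
    (fun a ha => (grSurj_iff X m a).1 (h a ha).2)

end generic

end Run7.h615.WL
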