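import Pool.Agent.Run7.h615.WL.BaseRep

/-!
# Purity over an algebraically closed field and over the given field
-/

set_option autoImplicit false

namespace Run7.h615.WL

universe u

open Module Pool.Agent.Y143 TensorProduct Multiplicative

section

variable {P : Type u} [Field P] {W : Type} [Group W] {deg : W →* Multiplicative ℤ} {q : ℕ}
  {R : WeilRep.{u, u} P deg q} {Ω : Type u} [Field Ω] [Algebra P Ω]

/-- Purity over `Ω` gives purity over `P`. -/
lemma isPureOver_of_baseChange [CharZero Ω] {m : ℤ} (hq : q ≠ 0)
    (h : (R.baseChange Ω).IsPure m) : R.IsPureOver Ω m := by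
  have : CharZero P := ⟨fun a b hab => by
    have h1 : (a : Ω) = b := by
      rw [← map_natCast (algebraMap P Ω), ← map_natCast (algebraMap P Ω) b, hab]
    exact_mod_cast h1⟩
  have hfin := R.isWeilRep.finite
  obtain ⟨M', hM', -, hw⟩ := h
  have hM : IsMonodromyFiltration R.N (monFil R.N) :=
    isMonodromyFiltration_monFil R.isWeilRep.nilpotent
  have e : M' = fun s => (monFil R.N s).baseChange Ω :=
    monodromyFiltration_unique hM' (isMonodromyFiltration_baseChange Ω hM)
  subst e
  refine ⟨monFil R.N, hM, fun g s x hx => ?_, fun g s => hw g s⟩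
  exact functorial' hM hM (R.ρ g) (zpow_ne_zero _ (Nat.cast_ne_zero.2 hq))
    (fun x => R.isWeilRep.comm g x) s hx

end

end Run7.h615.WL
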