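import Pool.Agent.Run7.h615.WL.BaseDefs
import Pool.Agent.Run7.h615.WL.Weil

/-!
# The base change of a representation of the Weil group
-/

set_option autoImplicit false

namespace Run7.h615.WL

universe u

open Module Pool.Agent.Y143 TensorProduct Multiplicative

section BaseChange

variable {P : Type u} [Field P] {D : Type u} [AddCommGroup D] [Module P D]
  (Ω : Type u) [Field Ω] [Algebra P Ω]

lemma baseChange_induct {S : Submodule P D} {p : Ω ⊗[P] D → Prop} (h0 : p 0)
    (hadd : ∀ x y, p x → p y → p (x + y)) (hsmul : ∀ (a : Ω) x, p x → p (a • x))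
    (h1 : ∀ x ∈ S, p (1 ⊗ₜ x)) {x : Ω ⊗[P] D} (hx : x ∈ S.baseChange Ω) : p x := by
  rw [Submodule.baseChange_eq_span] at hx
  induction hx using Submodule.span_induction with
  | mem x hx =>
    obtain ⟨y, hy, rfl⟩ := hx
    exact h1 y hy
  | zero => exact h0
  | add x y _ _ hx hy => exact hadd x y hx hy
  | smul a x _ hx => exact hsmul a x hx

lemma one_tmul_mem {S : Submodule P D} {x : D} (hx : x ∈ S) : (1 : Ω) ⊗ₜ[P] x ∈ S.baseChange Ω :=
  Submodule.tmul_mem_baseChange_of_mem 1 hx

lemma map_baseChange {D' : Type u} [AddCommGroup D'] [Module P D'] {S : Submodule P D}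
    {T : Submodule P D'} (f : D →ₗ[P] D') (h : ∀ x ∈ S, f x ∈ T) {x : Ω ⊗[P] D}
    (hx : x ∈ S.baseChange Ω) : f.baseChange Ω x ∈ T.baseChange Ω := by
  refine baseChange_induct Ω (p := fun x => f.baseChange Ω x ∈ T.baseChange Ω) ?_ ?_ ?_ ?_ hx
  · rw [map_zero]
    exact Submodule.zero_mem _
  · intro x y hx hy
    rw [map_add]
    exact Submodule.add_mem _ hx hy
  · intro a x hx
    rw [map_smul]
    exact Submodule.smul_mem _ a hx
  · intro x hx
    rw [LinearMap.baseChange_tmul]
    exact one_tmul_mem Ω (h x hx)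

/-- The base change of a monodromy filtration. -/
lemma isMonodromyFiltration_baseChange {N : Module.End P D} {M : ℤ → Submodule P D}
    (h : IsMonodromyFiltration N M) :
    IsMonodromyFiltration (N.baseChange Ω) (fun s => (M s).baseChange Ω) := by
  refine ⟨fun a b hab => Submodule.baseChange_mono Ω (h.mono hab), ?_, ?_, ?_, ?_, ?_⟩
  · obtain ⟨a, ha⟩ := h.bot
    exact ⟨a, by rw [ha, Submodule.baseChange_bot]⟩
  · obtain ⟨a, ha⟩ := h.top
    exact ⟨a, by rw [ha, Submodule.baseChange_top]⟩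
  · intro a x hx
    exact map_baseChange Ω N (h.map a) hx
  · intro a x hx hx1
    -- a linear map `ψ` inverse to `N ^ a`
    obtain ⟨ψ, hψ1, hψ2⟩ : ∃ ψ : D →ₗ[P] D, (∀ x ∈ M a, ψ ((N ^ a) x) - x ∈ M (a - 1)) ∧
        ∀ x ∈ M (-a - 1), ψ x ∈ M (a - 1) := by
      let A : Submodule P (M a) := (M (a - 1)).comap (M a).subtype
      let B : Submodule P D := M (-a - 1)
      have hA : A = LinearMap.ker (B.mkQ ∘ₗ ((N ^ a) ∘ₗ (M a).subtype)) := by
        ext ⟨x, hx⟩
        constructor
        · intro h1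
          have h2 : x ∈ M (a - 1) := h1
          have h3 := h.on.pow_map a _ x h2
          exact (Submodule.Quotient.mk_eq_zero B).2 (h.mono (by omega) h3)
        · intro h1
          exact h.inj a x hx ((Submodule.Quotient.mk_eq_zero B).1 h1)
      let g : (M a ⧸ A) →ₗ[P] D ⧸ B := A.liftQ (B.mkQ ∘ₗ ((N ^ a) ∘ₗ (M a).subtype)) hA.le
      have hg : LinearMap.ker g = ⊥ := by
        rw [Submodule.ker_liftQ, ← hA, Submodule.mkQ_map_self]
      obtain ⟨g', hg'⟩ := g.exists_leftInverse_of_injective hg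
      obtain ⟨s, hs⟩ := A.mkQ.exists_rightInverse_of_surjective A.range_mkQ
      refine ⟨(M a).subtype ∘ₗ s ∘ₗ g' ∘ₗ B.mkQ, ?_, ?_⟩
      · intro x hx
        have h1 : g' (B.mkQ ((N ^ a) x)) = A.mkQ ⟨x, hx⟩ :=
          LinearMap.congr_fun hg' (A.mkQ ⟨x, hx⟩)
        show ((s (g' (B.mkQ ((N ^ a) x))) : M a) : D) - x ∈ M (a - 1)
        rw [h1]
        have h2 : A.mkQ (s (A.mkQ ⟨x, hx⟩) - ⟨x, hx⟩) = 0 := by
          rw [map_sub, sub_eq_zero]
          exact LinearMap.congr_fun hs _
        exact (Submodule.Quotient.mk_eq_zero A).1 h2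
      · intro x hx
        have h1 : B.mkQ x = 0 := (Submodule.Quotient.mk_eq_zero B).2 hx
        show ((s (g' (B.mkQ x)) : M a) : D) ∈ M (a - 1)
        rw [h1, map_zero, map_zero]
        exact Submodule.zero_mem _
    have h1 : ψ.baseChange Ω ((N ^ a).baseChange Ω x) - x ∈ (M (a - 1)).baseChange Ω := by
      have h2 : ∀ x ∈ M a, (ψ ∘ₗ (N ^ a : D →ₗ[P] D) - (LinearMap.id : D →ₗ[P] D)) x ∈
        M (a - 1) := hψ1
      have h3 := map_baseChange Ω _ h2 hx
      rwa [LinearMap.baseChange_sub, LinearMap.baseChange_comp, LinearMap.baseChange_id] at h3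
    have h2 : ψ.baseChange Ω ((N ^ a).baseChange Ω x) ∈ (M (a - 1)).baseChange Ω := by
      apply map_baseChange Ω ψ hψ2
      rw [LinearMap.baseChange_pow]
      exact hx1
    have h3 := Submodule.sub_mem _ h2 h1
    rwa [sub_sub_cancel] at h3
  · intro a y hy
    refine baseChange_induct Ω (p := fun y => ∃ x ∈ (M a).baseChange Ω,
      y - ((N.baseChange Ω) ^ a) x ∈ (M (-a - 1)).baseChange Ω) ?_ ?_ ?_ ?_ hy
    · exact ⟨0, Submodule.zero_mem _, by
        rw [map_zero, sub_zero]
        exact Submodule.zero_mem _⟩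
    · rintro x y ⟨x', hx', hx⟩ ⟨y', hy', hy⟩
      refine ⟨x' + y', Submodule.add_mem _ hx' hy', ?_⟩
      rw [map_add, add_sub_add_comm]
      exact Submodule.add_mem _ hx hy
    · rintro c x ⟨x', hx', hx⟩
      refine ⟨c • x', Submodule.smul_mem _ c hx', ?_⟩
      have e : c • x - ((N.baseChange Ω) ^ a) (c • x') = c • (x - ((N.baseChange Ω) ^ a) x') := by
        rw [map_smul]
        exact (smul_sub c _ _).symm
      rw [e]
      exact Submodule.smul_mem _ c hx
    · intro x hx
      obtain ⟨x', hx', h1⟩ := h.surj a x hx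
      refine ⟨1 ⊗ₜ x', one_tmul_mem Ω hx', ?_⟩
      rw [← LinearMap.baseChange_pow, LinearMap.baseChange_tmul, ← TensorProduct.tmul_sub]
      exact one_tmul_mem Ω h1

/-- Two monodromy filtrations of the same operator are equal. -/
lemma monodromyFiltration_unique {Ω : Type u} [Field Ω] {V : Type u} [AddCommGroup V] [Module Ω V]
    {N : Module.End Ω V} {M M' : ℤ → Submodule Ω V} (h : IsMonodromyFiltration N M)
    (h' : IsMonodromyFiltration N M') : M = M' := by
  funext s
  apply le_antisymm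
  · intro x hx
    exact functorial' h h' LinearMap.id one_ne_zero (fun x => (one_smul _ _).symm) s hx
  · intro x hx
    exact functorial' h' h LinearMap.id one_ne_zero (fun x => (one_smul _ _).symm) s hx

lemma expAt_baseChange [Module.Finite P D] (N : Module.End P D) (t : P) :
    (expAt N t).baseChange Ω = expAt (N.baseChange Ω) (algebraMap P Ω t) := by
  unfold expAt
  rw [finrank_baseChange, show LinearMap.baseChange Ω (∑ i ∈ Finset.range (finrank P D + 1),
    ((i.factorial : P)⁻¹ * t ^ i) • N ^ i) = (LinearMap.baseChangeHom P Ω D D)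
      (∑ i ∈ Finset.range (finrank P D + 1), ((i.factorial : P)⁻¹ * t ^ i) • N ^ i) from rfl,
    map_sum]
  refine Finset.sum_congr rfl fun i _ => ?_
  rw [map_smul]
  show _ • (N ^ i).baseChange Ω = _
  rw [LinearMap.baseChange_pow, ← algebraMap_smul Ω ((i.factorial : P)⁻¹ * t ^ i), map_mul,
    map_inv₀, map_natCast, map_pow]

end BaseChange

section

variable {P : Type u} [Field P] {W : Type} [Group W] {deg : W →* Multiplicative ℤ} {q : ℕ}
  (R : WeilRep.{u, u} P deg q) (Ω : Type u) [Field Ω] [Algebra P Ω]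

lemma isWeilRep_baseChange : IsWeilRep q deg (repΩ Ω R.ρ) (R.N.baseChange Ω) := by
  have hfin := R.isWeilRep.finite
  refine ⟨inferInstance, ?_, ?_, ?_⟩
  · obtain ⟨k, hk⟩ := R.isWeilRep.nilpotent
    refine ⟨k, ?_⟩
    rw [← LinearMap.baseChange_pow, hk, LinearMap.baseChange_zero]
  · intro g x
    show R.N.baseChange Ω ((R.ρ g).baseChange Ω x) =
      (q : Ω) ^ toAdd (deg g) • (R.ρ g).baseChange Ω (R.N.baseChange Ω x)
    have e : R.N ∘ₗ R.ρ g = (q : P) ^ toAdd (deg g) • (R.ρ g ∘ₗ R.N) := by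
      ext x
      exact R.isWeilRep.comm g x
    have e2 := congrArg (fun f => LinearMap.baseChange Ω f x) e
    simp only [LinearMap.baseChange_comp, LinearMap.baseChange_smul, LinearMap.comp_apply,
      LinearMap.smul_apply] at e2
    rw [e2, ← algebraMap_smul Ω ((q : P) ^ toAdd (deg g)), map_zpow₀, map_natCast]
  · obtain ⟨I, hI, hI2, t, ht⟩ := R.isWeilRep.inertia
    refine ⟨I, hI, hI2,
      (AddMonoidHom.toMultiplicative (algebraMap P Ω).toAddMonoidHom).comp t, fun g => ?_⟩
    show (R.ρ g).baseChange Ω = expAt (R.N.baseChange Ω) (algebraMap P Ω (toAdd (t g)))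
    rw [ht g, expAt_baseChange]

end

end Run7.h615.WL
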