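import Pool.Agent.Run7.h615.WL.PhiNDefs
import Pool.Agent.Run7.h615.WL.BaseLem

/-!
# `(φ, N)`-modules: direct summands and base change
-/

set_option autoImplicit false

namespace Run7.h615.WL

universe u

open Module Pool.Agent.Y143 TensorProduct

section

variable {Ω : Type u} [Field Ω] [CharZero Ω] {V : Type u} [AddCommGroup V] [Module Ω V]
  {V' : Type u} [AddCommGroup V'] [Module Ω V']

/-- A direct summand of a pure module is pure. -/
lemma isMWPure_of_retract {F N : Module.End Ω V} {F' N' : Module.End Ω V'}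
    (h : IsDirectSummand F N F' N') {q : ℕ} {m : ℤ} (hN : IsNilpotent N)
    (hX : IsMWPure q m F' N') : IsMWPure q m F N := by
  obtain ⟨i, r, c, h⟩ := h
  obtain ⟨M', hM', hs, hw⟩ := hX
  have hM : IsMonodromyFiltration N (monFil N) := isMonodromyFiltration_monFil hN
  have hi : ∀ s x, x ∈ monFil N s → i x ∈ M' s := fun s x hx =>
    functorial' hM hM' i h.ne h.pullN s hx
  have hr : ∀ s x, x ∈ M' s → r x ∈ monFil N s := fun s x hx =>
    functorial' hM' hM r (inv_ne_zero h.ne) (fun x => by
      rw [h.pushN, smul_smul, inv_mul_cancel₀ h.ne, one_smul]) s hx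
  refine ⟨monFil N, hM, fun s x hx => ?_, fun s α x hx hx1 hα => ?_⟩
  · have h1 := hr _ _ (hs _ _ (hi s x hx))
    rwa [h.pull, h.retract] at h1
  · apply hw s α (i x) (hi s x hx)
    · intro h0
      have := hr _ _ h0
      rw [h.retract] at this
      exact hx1 this
    · have := hi _ _ hα
      rwa [map_sub, map_smul, ← h.pull] at this

end

section

variable {K : Type u} [Field K] {D : Type u} [AddCommGroup D] [Module K D] {σ : K →+* K} {p f : ℕ}
  {φ : D → D} {N F : Module.End K D}

lemma IsPhiN.comm_pow (h : IsPhiN σ p f φ N F) (j : ℕ) (x : D) :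
    (N ^ j) (φ x) = (p : K) ^ j • φ ((N ^ j) x) := by
  induction j generalizing x with
  | zero => simp
  | succ j ih =>
    rw [pow_succ, Module.End.mul_apply, h.comm, map_smul, ih, Module.End.mul_apply, smul_smul,
      pow_succ']

lemma IsPhiN.comm_iter (h : IsPhiN σ p f φ N F) (j : ℕ) (x : D) :
    N (φ^[j] x) = (p : K) ^ j • φ^[j] (N x) := by
  have hs : ∀ (j k : ℕ) (y : D), φ^[j] ((p : K) ^ k • y) = (p : K) ^ k • φ^[j] y := by
    intro j k
    induction j with
    | zero => intro y; rfl
    | succ j ih =>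
      intro y
      rw [Function.iterate_succ_apply, Function.iterate_succ_apply, h.smul, map_pow, map_natCast,
        ih]
  induction j generalizing x with
  | zero => simp
  | succ j ih =>
    rw [Function.iterate_succ_apply, Function.iterate_succ_apply, ih, h.comm]
    have := hs j 1 (φ (N x))
    rw [pow_one] at this
    rw [this, smul_smul, pow_succ]

lemma IsPhiN.comm_F (h : IsPhiN σ p f φ N F) (x : D) :
    N (F x) = ((p ^ f : ℕ) : K) • F (N x) := by
  rw [h.linear, h.linear, h.comm_iter, Nat.cast_pow]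

lemma IsPhiN.map_zero (h : IsPhiN σ p f φ N F) : φ 0 = 0 := by
  have := h.add 0 0
  rw [add_zero] at this
  exact left_eq_add.1 this

/-- The semilinear Frobenius preserves the monodromy filtration. -/
lemma IsPhiN.monFil (h : IsPhiN σ p f φ N F) (hp : (p : K) ≠ 0) (j : ℤ) {x : D}
    (hx : x ∈ Pool.Agent.Y143.monFil N j) : φ x ∈ Pool.Agent.Y143.monFil N j := by
  unfold Pool.Agent.Y143.monFil at hx
  induction hx using Submodule.iSup_induction' with
  | mem i x hx =>
    obtain ⟨i, hi⟩ := i
    obtain ⟨y, hy, rfl⟩ := hx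
    have h1 : (N ^ (j + 1 + 2 * (i : ℤ)).toNat) y = 0 := hy
    have h2 : φ ((N ^ i) y) = ((p : K) ^ i)⁻¹ • (N ^ i) (φ y) := by
      rw [h.comm_pow, smul_smul, inv_mul_cancel₀ (pow_ne_zero _ hp), one_smul]
    show φ ((N ^ i) y) ∈ _
    rw [h2]
    apply Submodule.smul_mem
    have h3 : (0 : ℤ) ≤ j + 1 + 2 * i := by omega
    refine mem_monFil_of hi (e := (j + 1 + 2 * (i : ℤ)).toNat) (Int.toNat_of_nonneg h3) ?_
    rw [h.comm_pow, h1, h.map_zero, smul_zero]
  | zero =>
    rw [h.map_zero]
    exact Submodule.zero_mem _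
  | add x y _ _ hx hy =>
    rw [h.add]
    exact Submodule.add_mem _ hx hy

end

/-- **Direct summands of `(φ, N)`-modules which are pure.** -/
theorem PhiNModule.isPure_of_isDominated {K : Type u} [Field K] {σ : K →+* K} {p f : ℕ}
    (R : PhiNModule K σ p f) {Ω : Type u} [Field Ω] [CharZero Ω] [Algebra K Ω] {V' : Type u}
    [AddCommGroup V'] [Module Ω V'] {F' N' : Module.End Ω V'} {m : ℤ} (hp : p ≠ 0)
    (h : R.IsDominated F' N') (hX : IsMWPure (p ^ f) m F' N') : R.IsPure Ω m := by
  have : CharZero K := ⟨fun a b hab => by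
    have h1 : (a : Ω) = b := by
      rw [← map_natCast (algebraMap K Ω), ← map_natCast (algebraMap K Ω) b, hab]
    exact_mod_cast h1⟩
  have hfin := R.isPhiN.finite
  have hN : IsNilpotent (R.N.baseChange Ω) := by
    obtain ⟨k, hk⟩ := R.isPhiN.nilpotent
    exact ⟨k, by rw [← LinearMap.baseChange_pow, hk, LinearMap.baseChange_zero]⟩
  obtain ⟨M', hM', -, hw⟩ := isMWPure_of_retract h hN hX
  have hM : IsMonodromyFiltration R.N (monFil R.N) := isMonodromyFiltration_monFil
    R.isPhiN.nilpotent
  have e : M' = fun s => (monFil R.N s).baseChange Ω :=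
    monodromyFiltration_unique hM' (isMonodromyFiltration_baseChange Ω hM)
  subst e
  refine ⟨monFil R.N, hM, fun j x hx => R.isPhiN.monFil (Nat.cast_ne_zero.2 hp) j hx,
    fun j α x hx hx1 hα => ?_⟩
  have := hw j α x hx hx1 hα
  rwa [add_comm]

end Run7.h615.WL
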