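import Pool.Agent.Y143.Defs

/-!
# Representations of the Weil group with a monodromy operator
-/

set_option autoImplicit false

namespace Run7.h615.WL

universe u v

open Module Pool.Agent.Y143

section

variable {Ω : Type u} [Field Ω] {V : Type v} [AddCommGroup V] [Module Ω V]

/-- The exponential `exp (t N) = ∑ t^i / i! N^i` of a multiple of a nilpotent operator. -/
noncomputable def expAt (N : Module.End Ω V) (t : Ω) : Module.End Ω V :=
  ∑ i ∈ Finset.range (finrank Ω V + 1), ((i.factorial : Ω)⁻¹ * t ^ i) • N ^ i

variable {W : Type} [Group W]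

/-- The subgroup `I` acts by `exp (t(g) N)` for a character `t` of `I` (for `ℓ ≠ p`, the `ℓ`-adic tame
character). -/
def ActsByExp (ρ : Representation Ω W V) (N : Module.End Ω V) (I : Subgroup W) : Prop :=
  ∃ t : I →* Multiplicative Ω, ∀ g : I, ρ g = expAt N (Multiplicative.toAdd (t g))

/-- `N` is a morphism from `V` to `V(-1)`: `N g = q ^ (deg g) g N`. -/
def IsTwisted (q : ℕ) (deg : W →* Multiplicative ℤ) (ρ : Representation Ω W V)
    (N : Module.End Ω V) : Prop :=
  ∀ g v, N (ρ g v) = (q : Ω) ^ Multiplicative.toAdd (deg g) • ρ g (N v)

/-- `ρ` is a finite-dimensional representation of the Weil group `W` of a `p`-adic field with residue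
field with `q` elements, and `N` is its monodromy operator: `deg g = n` if `g` acts on the residue
field as the `n`-th power of the geometric Frobenius, `N` is a nilpotent morphism from `V` to `V(-1)`,
and a subgroup of finite index of the inertia group (the kernel of `deg`) acts by `exp (t(g) N)`. -/
structure IsWeilRep (q : ℕ) (deg : W →* Multiplicative ℤ) (ρ : Representation Ω W V)
    (N : Module.End Ω V) : Prop where
  finite : Module.Finite Ω V
  nilpotent : IsNilpotent N
  comm : IsTwisted q deg ρ N
  inertia : ∃ I : Subgroup W, I ≤ deg.ker ∧ I.relIndex deg.ker ≠ 0 ∧ ActsByExp ρ N I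

/-- Every eigenvalue of the operator `F` on `A / B` is a `q`-Weil number of weight `w`. -/
def EigenvaluesWeil [CharZero Ω] (q : ℕ) (w : ℤ) (F : Module.End Ω V) (A B : Submodule Ω V) :
    Prop :=
  ∀ (α : Ω) (x : V), x ∈ A → x ∉ B → F x - α • x ∈ B → IsWeilNumber q w α

/-- The weight-monodromy conjecture for a representation of the Weil group, in weight `m`, as in the
problem: for every element `g` of the Weil group and every `s`, every eigenvalue of `g` on the graded
piece `M_s / M_(s-1)` of the monodromy filtration is a `q`-Weil number of weight `(m + s) deg g`: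
an algebraic number all of whose complex conjugates have absolute value
`q ^ ((m + s) deg g / 2) = p ^ ((m + s) v(g) / 2)`. -/
def IsPureRep [CharZero Ω] (q : ℕ) (m : ℤ) (deg : W →* Multiplicative ℤ)
    (ρ : Representation Ω W V) (N : Module.End Ω V) : Prop :=
  ∃ M : ℤ → Submodule Ω V, IsMonodromyFiltration N M ∧ (∀ g s x, x ∈ M s → ρ g x ∈ M s) ∧
    ∀ g s, EigenvaluesWeil q ((m + s) * Multiplicative.toAdd (deg g)) (ρ g) (M s) (M (s - 1))

/-- `ρ` is the representation of the Weil group of a field on the cohomology of a variety with a
projective strictly semistable model over the integers: a lift of the geometric Frobenius acts by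
the operator `F`, and the whole inertia group acts by `exp (t(g) N)`. -/
structure IsModelRep (q : ℕ) (deg : W →* Multiplicative ℤ) (ρ : Representation Ω W V)
    (F N : Module.End Ω V) : Prop where
  finite : Module.Finite Ω V
  comm : IsTwisted q deg ρ N
  inertia : ActsByExp ρ N deg.ker
  frob : ∃ Φ, deg Φ = Multiplicative.ofAdd 1 ∧ ρ Φ = F

variable {W' : Type} [Group W'] {V' : Type v} [AddCommGroup V'] [Module Ω V']

/-- The maps `i` and `r` are compatible with the action of `W'`, `r i = 1`. -/
structure IsSummand (φ : W' →* W) (ρ : Representation Ω W V) (ρ' : Representation Ω W' V')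
    (i : V →ₗ[Ω] V') (r : V' →ₗ[Ω] V) : Prop where
  retract : ∀ v, r (i v) = v
  pull : ∀ g v, i (ρ (φ g) v) = ρ' g (i v)
  push : ∀ g v, r (ρ' g v) = ρ (φ g) (r v)

/-- The maps `i` and `r` are compatible with the monodromy operators, up to the factor `c`. -/
structure ComparesN (N : Module.End Ω V) (N' : Module.End Ω V') (i : V →ₗ[Ω] V')
    (r : V' →ₗ[Ω] V) (c : Ω) : Prop where
  ne : c ≠ 0
  pull : ∀ v, N' (i v) = c • i (N v)
  push : ∀ v, r (N' v) = c • N (r v)

/-- `φ` is the inclusion of the Weil group of an extension of finite degree, with residue degree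
`f`. -/
structure IsFiniteExtension (f : ℕ) (deg : W →* Multiplicative ℤ)
    (deg' : W' →* Multiplicative ℤ) (φ : W' →* W) : Prop where
  pos : 0 < f
  index : φ.range.index ≠ 0
  degree : ∀ g, deg (φ g) = deg' g ^ f

end

/-- The cohomology `V = H^m(X_{\bar K})` of a smooth proper variety over `K`: a representation of the
Weil group `W` of `K`, with its monodromy operator. -/
structure WeilRep (Ω : Type u) [Field Ω] {W : Type} [Group W] (deg : W →* Multiplicative ℤ)
    (q : ℕ) where
  V : Type v
  [addCommGroup : AddCommGroup V]
  [module : Module Ω V]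
  ρ : Representation Ω W V
  N : Module.End Ω V
  isWeilRep : IsWeilRep q deg ρ N

attribute [instance] WeilRep.addCommGroup WeilRep.module

/-- The weight-monodromy conjecture for a representation of the Weil group, in weight `m`. -/
def WeilRep.IsPure {Ω : Type u} [Field Ω] [CharZero Ω] {W : Type} [Group W]
    {deg : W →* Multiplicative ℤ} {q : ℕ} (R : WeilRep.{u, v} Ω deg q) (m : ℤ) : Prop :=
  IsPureRep q m deg R.ρ R.N

/-- `V' = H^m(X')` for a variety `X'` over the finite extension `K'` of `K`, with residue degree `f`,
which has a projective strictly semistable model over the integers, with the operator `F` of a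
Frobenius element and the monodromy operator `N'`, and `X'` has a surjective map to `X`; then
`H^m(X)` is a direct summand of `H^m(X')`: `φ` is the inclusion of the Weil group of `K'` in the one of
`K`, `i` is the pull-back, `r` is a multiple of the push-forward, and `c` is the factor which
compares the monodromy operators. -/
structure Domination {Ω : Type u} [Field Ω] {W : Type} [Group W] {deg : W →* Multiplicative ℤ}
    {q : ℕ} (R : WeilRep.{u, v} Ω deg q) (f : ℕ) {V' : Type v} [AddCommGroup V'] [Module Ω V']
    (F N' : Module.End Ω V') where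
  W' : Type
  [group : Group W']
  deg' : W' →* Multiplicative ℤ
  ρ' : Representation Ω W' V'
  model : IsModelRep (q ^ f) deg' ρ' F N'
  φ : W' →* W
  extension : IsFiniteExtension f deg deg' φ
  i : R.V →ₗ[Ω] V'
  r : V' →ₗ[Ω] R.V
  summand : IsSummand φ R.ρ ρ' i r
  c : Ω
  monodromy : ComparesN R.N N' i r c

attribute [instance] Domination.group

end Run7.h615.WL
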