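import Pool.Agent.Run7.h615.WL.Main

/-!
# Strata whose cohomology below the middle degree is generated in degree two
-/

set_option autoImplicit false

namespace Run7.h615.WL

universe u v

open Module Pool.Agent.Y143 Pool.Agent.X302.MW Pool.Agent.Helper60K9.KL

variable {Ω : Type u} [Field Ω] [CharZero Ω] {Γ : Type} {n q : ℕ}

/-- The classes with restriction zero can be put into the space `T`. -/
lemma generatedAt_of_le (X : SpecialFibre.{u, v} Ω Γ n q) (a w : ℕ) (χ : Γ → Ω)
    {S : Submodule Ω (X.H a)} (hS : S ≤ X.gr a w)
    (h : X.gr a w ≤ S ⊔ LinearMap.ker (X.res a)) : GeneratedAt X a w χ S := by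
  refine ⟨X.gr a w ⊓ LinearMap.ker (X.res a), inf_le_left, ?_, ?_, ?_⟩
  · rintro y ⟨hy, -⟩
    obtain ⟨s, hs, t, ht, rfl⟩ := Submodule.mem_sup.1 (h hy)
    refine Submodule.mem_sup.2 ⟨s, hs, t, ⟨?_, ht⟩, rfl⟩
    have := Submodule.sub_mem _ hy (hS hs)
    rwa [add_sub_cancel_left] at this
  · rintro s - t ⟨-, ht⟩
    have ht' : X.res a t = 0 := ht
    show (formL X (a + 1) (n - a - 1 - w)) (X.res a s) (X.res a t) = 0
    rw [ht', map_zero]
  · rintro t ⟨-, ht⟩ -
    exact ht

/-- **Special case.** If on the strata of dimension at least three, up to classes which restrict to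
zero on the next strata, the second cohomology is spanned by classes of divisors, and the cohomology
of degree `w`, `3 ≤ w < dim`, consists of multiples of the class `L` of an ample divisor, then all the
`H^k` are mw pure. For example all the strata of dimension at least three are complete intersections
in projective spaces. There is no condition on the middle cohomology of the strata, and on the strata
of dimension one and two. -/
theorem mw_of_strata [IsAlgClosed Ω] (X : Degeneration.{u, v} Ω Γ n q)
    (A : DivisorClasses X.toSpecialFibre)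
    (h2 : ∀ a, a + 3 ≤ n →
      X.gr a 2 ≤ Submodule.span Ω (A.A1 a : Set (X.H a)) ⊔ LinearMap.ker (X.res a))
    (h3 : ∀ a w : ℕ, 3 ≤ w → a + 1 + w ≤ n →
      X.gr a w ≤ (X.gr a ((w : ℤ) - 2)).map (X.lef a) ⊔ LinearMap.ker (X.res a)) (k : ℕ) :
    IsMWPure q k (X.actV k X.frob) (X.N k) := by
  let C : CycleClasses X.toSpecialFibre :=
    { Z := fun _ _ => ⊥
      group := fun a c => ⟨fun x hx => by
          rw [AddSubgroup.mem_bot] at hx
          rw [hx]
          exact Submodule.zero_mem _, fun _ x hx y _ => ⟨0, by
          rw [AddSubgroup.mem_bot] at hx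
          show X.pair a x _ = _
          rw [hx, map_zero, LinearMap.zero_apply, Int.cast_zero]⟩⟩
      preserves := fun a =>
        { res := fun c x hx => by
            rw [AddSubgroup.mem_bot] at hx ⊢
            rw [hx, map_zero]
          gys := fun c x hx => by
            rw [AddSubgroup.mem_bot] at hx ⊢
            rw [hx, map_zero]
          lef := fun c x hx => by
            rw [AddSubgroup.mem_bot] at hx ⊢
            rw [hx, map_zero] } }
  apply mw_of_harmless X A C k
  intro a w χ hw h1 h4
  rcases eq_or_lt_of_le hw with h | h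
  · subst h
    refine Or.inr (Or.inr (Or.inl ⟨rfl, ?_⟩))
    apply generatedAt_of_le
    · rw [Submodule.span_le]
      intro x hx
      exact A.A1_le a x hx
    · exact h2 a (by omega)
  · refine Or.inr (Or.inr (Or.inr (Or.inl ⟨h, ?_⟩)))
    apply generatedAt_of_le
    · rintro _ ⟨z, hz, rfl⟩
      have := X.lef_gr a _ _ hz
      rwa [show (w : ℤ) - 2 + 2 = w by ring] at this
    · exact h3 a w h (by omega)

end Run7.h615.WL
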