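import Pool.Agent.Run7.h615.WL.WeilDefs

/-!
# Representations of the Weil group over a field which is not algebraically closed
-/

set_option autoImplicit false

namespace Run7.h615.WL

universe u

open Module Pool.Agent.Y143 TensorProduct Multiplicative

variable {P : Type u} [Field P] {W : Type} [Group W] (Ω : Type u) [Field Ω] [Algebra P Ω]
  {D : Type u} [AddCommGroup D] [Module P D]

/-- Every eigenvalue in `Ω` of the `P`-linear operator `F` on `A / B` is a `q`-Weil number of
weight `w`. -/
def EigenvaluesWeilOver [CharZero Ω] (q : ℕ) (w : ℤ) (F : Module.End P D) (A B : Submodule P D) :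
    Prop :=
  EigenvaluesWeil q w (F.baseChange Ω) (A.baseChange Ω) (B.baseChange Ω)

/-- The base change of a representation. -/
noncomputable def repΩ (ρ : Representation P W D) : Representation Ω W (Ω ⊗[P] D) :=
  (Module.End.baseChangeHom P Ω D : Module.End P D →* Module.End Ω (Ω ⊗[P] D)).comp ρ

/-- The weight-monodromy conjecture for a representation of the Weil group over `P`, with
eigenvalues in the algebraically closed field `Ω`: for every element `g` of the Weil group and
every `s`, every eigenvalue of `g` on the graded piece `M_s / M_(s-1)` of the monodromy filtration is a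
`q`-Weil number of weight `(m + s) deg g`. -/
def IsPureRepOver [CharZero Ω] (q : ℕ) (m : ℤ) (deg : W →* Multiplicative ℤ)
    (ρ : Representation P W D) (N : Module.End P D) : Prop :=
  ∃ M : ℤ → Submodule P D, IsMonodromyFiltration N M ∧ (∀ g s x, x ∈ M s → ρ g x ∈ M s) ∧
    ∀ g s, EigenvaluesWeilOver Ω q ((m + s) * toAdd (deg g)) (ρ g) (M s) (M (s - 1))

end Run7.h615.WL
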