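import Pool.Agent.Run7.h615.WL.BaseLem

/-!
# The base change of a representation of the Weil group: definitions
-/

set_option autoImplicit false

namespace Run7.h615.WL

universe u

open TensorProduct

variable {P : Type u} [Field P] {W : Type} [Group W] {deg : W →* Multiplicative ℤ} {q : ℕ}
  (R : WeilRep.{u, u} P deg q) (Ω : Type u) [Field Ω] [Algebra P Ω]

lemma isWeilRep_base : IsWeilRep q deg (repΩ Ω R.ρ) (R.N.baseChange Ω) :=
  isWeilRep_baseChange R Ω

/-- The representation over the larger field `Ω`. -/
noncomputable def WeilRep.baseChange : WeilRep.{u, u} Ω deg q :=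
  ⟨Ω ⊗[P] R.V, repΩ Ω R.ρ, R.N.baseChange Ω, isWeilRep_base R Ω⟩

/-- The weight-monodromy conjecture for the representation over `P`. -/
def WeilRep.IsPureOver [CharZero Ω] (m : ℤ) : Prop := IsPureRepOver Ω q m deg R.ρ R.N

end Run7.h615.WL
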