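import Pool.Agent.X302.MW.Core

/-!
# The induction on families of pairs of Lefschetz complexes in duality

A version of `Pool.Agent.X302.MW.main'` where the critical condition in the bidegree `(i, -m)` may
use the statement in the bidegrees `(i', -m')` with `m' + i' > m + i`, for all the members of the
family.
-/

set_option autoImplicit false

namespace Run7.h615.WL

open Module Submodule Pool.Agent.Y143 Pool.Agent.X302.MW

variable {Ω : Type*} [Field Ω] {C : Type*} [AddCommGroup C] [Module Ω C] [FiniteDimensional Ω C]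
variable {ψ : C →ₗ[Ω] C →ₗ[Ω] Ω} {d : ℤ → Module.End Ω C} {L : Module.End Ω C}

lemma step'' {G G' : ℤ → ℤ → Submodule Ω C}
    (h : LefDual ψ d L G G') (hG : LefComplex d L G) (hG' : LefComplex d L G') (M : ℕ)
    (i j : ℤ) (hj : j ≤ -M)
    (hT : 1 ≤ i → ∀ m : ℕ, j = -m → M ≤ m → CritP d L G G' i m)
    (ih : ∀ i' j' : ℤ, j' ≤ -M → j' - i' < j - i → LefDual.Diag d G G' i' j')
    (ih2 : LefDual.Diag d G G' (i - 1) (j - 1)) : LefDual.Diag d G G' i j := by
  have k1 := h.kk_eq hG' i j
  have k2 := hh_eq d G i j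
  have k3 := hh_eq d G' i j
  have k4 := ih2.rk
  rcases lt_trichotomy i 0 with hi | hi | hi
  · -- negative column
    have a1 := ih (-i) j hj (by omega)
    have a2 := ih (-i - 1) (j - 1) (by omega) (by omega)
    have b1 := h.kk_eq hG' (-i) j
    have b2 := hh_eq d G (-i) j
    have b3 := hh_eq d G' (-i) j
    have c1 := h.hh_neg hG hG' (-i) j
    have c2 := h.flip.hh_neg hG' hG (-i) j
    rw [neg_neg] at c1 c2
    have d1 := a1.rk
    have d2 := a2.rk
    exact ⟨by omega, fun h => by omega⟩
  · subst hi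
    have c1 := h.hh_neg hG hG' 0 j
    rw [neg_zero] at c1
    exact ⟨by omega, fun h => by omega⟩
  · have hg : Good2 d G G' i j := by
      obtain ⟨m, hm⟩ := Int.eq_ofNat_of_zero_le (show 0 ≤ -j by omega)
      obtain rfl : j = -m := by omega
      have g2 := (ih i (-((m + 2 : ℕ) : ℤ)) (by push_cast; omega) (by push_cast; omega)).good hi
      have g3 := h.good_pos hG hG' i hi _ g2
      have g4 := (ih i (-m - 2) (by omega) (by omega)).rk
      have hm2 : ((m + 2 : ℕ) : ℤ) = (m : ℤ) + 2 := by push_cast; ring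
      have hI : NInj d G i ((m : ℤ) + 2) := by rw [← hm2]; exact g3.inj
      have hI' : NInj d G' i ((m : ℤ) + 2) := by rw [← hm2]; exact g3.inj'
      exact core2' h hG hG' i hi m hI hI' k4 g4 (hT hi m rfl (by omega))
    exact ⟨by have := hg.hh; omega, fun _ => hg⟩

/-- **The induction for families.** The critical condition in bidegree `(i, -m)` may use the
conclusion in the bidegrees `(i', -m')` with `m' + i' > m + i` for all members of the family. -/
theorem main_family {κ : Type*} {G G' : κ → ℤ → ℤ → Submodule Ω C}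
    (h : ∀ c, LefDual ψ d L (G c) (G' c)) (hG : ∀ c, LefComplex d L (G c))
    (hG' : ∀ c, LefComplex d L (G' c)) (B : ℤ) (hB0 : 0 ≤ B)
    (hB : ∀ c i j, (B < |i| ∨ B < |j|) → G c i j = ⊥ ∧ G' c i j = ⊥) (M : ℕ)
    (hT : ∀ i : ℤ, 1 ≤ i → ∀ m : ℕ, M ≤ m →
      (∀ (c : κ) (i' : ℤ) (m' : ℕ), 1 ≤ i' → M ≤ m' → (m : ℤ) + i < m' + i' →
        Good2 d (G c) (G' c) i' (-m')) → ∀ c, CritP d L (G c) (G' c) i m)
    (c : κ) (i j : ℤ) (hj : j ≤ -M) : LefDual.Diag d (G c) (G' c) i j := by
  have key : ∀ N : ℕ, ∀ (c : κ) (i j : ℤ), j ≤ -M → j - i < -4 * B + N →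
      LefDual.Diag d (G c) (G' c) i j := by
    intro N
    induction N with
    | zero =>
      intro c i j _ hij
      have hb : ∀ i j : ℤ, j - i < -4 * B → G c i j = ⊥ ∧ G' c i j = ⊥ := by
        intro i j hij
        apply hB
        by_contra hcon
        push Not at hcon
        obtain ⟨h1, h2⟩ := hcon
        have h3 := abs_le.1 h1
        have h4 := abs_le.1 h2
        omega
      have hij' : j - i < -4 * B := by simpa using hij
      obtain ⟨g1, g2⟩ := hb i j hij'
      obtain ⟨g3, g4⟩ := hb (i - 1) (j - 1) (by omega)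
      have z1 : Zc d (G c) i j = ⊥ := by unfold Zc; rw [g1]; simp
      have z2 : Zc d (G' c) i j = ⊥ := by unfold Zc; rw [g2]; simp
      have z3 : Bd d (G c) i j = ⊥ := by unfold Bd; rw [g3]; simp
      have z4 : Bd d (G' c) i j = ⊥ := by unfold Bd; rw [g4]; simp
      refine ⟨by rw [LefDual.rk_bot g1, LefDual.rk_bot g2], fun hi => ?_⟩
      refine (h c).good_of_inj (hG c) (hG' c) i hi j ?_ ?_
      · unfold NInj; rw [z3]; simp
      · unfold NInj; rw [z4]; simp
    | succ N ihN =>
      intro c i j hjM hij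
      -- inner induction on the column
      have inner : ∀ R : ℕ, ∀ i' j' : ℤ, j' ≤ -M → j' - i' = j - i → i' < -(2 * B) + R →
          LefDual.Diag d (G c) (G' c) i' j' := by
        intro R
        induction R with
        | zero =>
          intro i' j' _ hd hi'
          have hlt : i' < -(2 * B) := by simpa using hi'
          have habs : B < |i'| := by
            rw [abs_of_nonpos (by omega)]
            omega
          have g1 : G c i' j' = ⊥ := (hB _ _ _ (Or.inl (by omega))).1
          have g2 : G' c i' j' = ⊥ := (hB _ _ _ (Or.inl (by omega))).2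
          exact ⟨by rw [LefDual.rk_bot g1, LefDual.rk_bot g2], fun h => by omega⟩
        | succ R ihR =>
          intro i' j' hj' hd hi'
          apply step'' (h c) (hG c) (hG' c) M i' j' hj'
          · intro h1 m hm hMm
            apply hT i' h1 m hMm
            intro c' i'' m' h1' hM' hlt
            apply (ihN c' i'' (-m') (by omega) (by push_cast at hij; omega)).good h1'
          · intro i'' j'' hj'' hlt
            apply ihN _ _ _ hj''
            push_cast at hij
            omega
          · apply ihR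
            · omega
            · omega
            · push_cast at hi'
              omega
      exact inner (i + 2 * B + 1).toNat i j hjM rfl (by omega)
  exact key (j - i + 4 * B + 1).toNat c i j hj (by omega)

/-- The statement for `N ^ i` in the degrees `j` with `|j| ≥ M`. -/
theorem good_family {κ : Type*} {G G' : κ → ℤ → ℤ → Submodule Ω C}
    (h : ∀ c, LefDual ψ d L (G c) (G' c)) (hG : ∀ c, LefComplex d L (G c))
    (hG' : ∀ c, LefComplex d L (G' c)) (B : ℤ) (hB0 : 0 ≤ B)
    (hB : ∀ c i j, (B < |i| ∨ B < |j|) → G c i j = ⊥ ∧ G' c i j = ⊥) (M : ℕ)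
    (hT : ∀ i : ℤ, 1 ≤ i → ∀ m : ℕ, M ≤ m →
      (∀ (c : κ) (i' : ℤ) (m' : ℕ), 1 ≤ i' → M ≤ m' → (m : ℤ) + i < m' + i' →
        Good2 d (G c) (G' c) i' (-m')) → ∀ c, CritP d L (G c) (G' c) i m)
    (c : κ) (i j : ℤ) (hi : 1 ≤ i) (hj : (M : ℤ) ≤ |j|) : Good2 d (G c) (G' c) i j := by
  rcases le_total j 0 with h0 | h0
  · rw [abs_of_nonpos h0] at hj
    exact (main_family h hG hG' B hB0 hB M hT c i j (by omega)).good hi
  · rw [abs_of_nonneg h0] at hj
    obtain ⟨m, rfl⟩ := Int.eq_ofNat_of_zero_le h0
    exact (h c).good_pos (hG c) (hG' c) i hi m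
      ((main_family h hG hG' B hB0 hB M hT c i (-m) (by omega)).good hi)

end Run7.h615.WL
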