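import Pool.Agent.X302.MW.Defs
import Pool.Agent.Helper60K9.KL.Defs

/-!
# Algebraic classes of arbitrary codimension on the strata, and harmless characters
-/

set_option autoImplicit false

namespace Run7.h615.WL

universe u v

open Module Pool.Agent.Y143 Pool.Agent.X302.MW Pool.Agent.Helper60K9.KL

section

variable {Ω : Type u} [Field Ω] {H : Type v} [AddCommGroup H] [Module Ω H] {H' : Type v}
  [AddCommGroup H'] [Module Ω H']

/-- The elements of `G` are sums of elements of `S` and of a subspace `T` of `G₀` such that the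
restrictions `ρ s` and `ρ t` of `s ∈ S` and `t ∈ T` are orthogonal for the form `F`, and `F` is
nondegenerate on `ρ T`. For `T = 0` this means `G ≤ S`; the elements of `G` with restriction zero
can always be put into `T`. -/
def GeneratedBy (G G₀ S : Submodule Ω H) (ρ : H →ₗ[Ω] H') (F : H' →ₗ[Ω] H' →ₗ[Ω] Ω) : Prop :=
  ∃ T ≤ G₀, G ≤ S ⊔ T ∧ (∀ s ∈ S, ∀ t ∈ T, ev F (ρ s) (ρ t) = 0) ∧
    ∀ t ∈ T, (∀ t' ∈ T, ev F (ρ t) (ρ t') = 0) → ρ t = 0

/-- `Z` is a group of classes of algebraic cycles of codimension `c` on a smooth projective variety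
of dimension `d`: it is contained in `H^(2 c)`, and the numbers `B(x, L^(d - 2 c) y)` are integers
(for `2 c ≤ d`). -/
structure IsCycleGroup (gr : ℤ → Submodule Ω H) (d c : ℕ) (B : H →ₗ[Ω] H →ₗ[Ω] Ω)
    (L : Module.End Ω H) (Z : AddSubgroup H) : Prop where
  le : ∀ x ∈ Z, x ∈ gr (2 * (c : ℤ))
  int : 2 * c ≤ d → ∀ x ∈ Z, ∀ y ∈ Z, ∃ k : ℤ, ev B x (pw L (d - 2 * c) y) = k

/-- The restriction `ρ` maps the group `Z c` of classes of codimension `c` to `Z' c`, the Gysin map
`τ` maps `Z' c` to `Z (c + 1)`, and the Lefschetz operator `L` maps `Z c` to `Z (c + 1)`. -/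
structure PreservesCycles (Z : ℕ → AddSubgroup H) (Z' : ℕ → AddSubgroup H')
    (L : Module.End Ω H) (ρ : H →ₗ[Ω] H') (τ : H' →ₗ[Ω] H) : Prop where
  res : ∀ c, ∀ x ∈ Z c, ρ x ∈ Z' c
  gys : ∀ c, ∀ x ∈ Z' c, τ x ∈ Z (c + 1)
  lef : ∀ c, ∀ x ∈ Z c, L x ∈ Z (c + 1)

end

variable {Ω : Type u} [Field Ω] [CharZero Ω] {Γ : Type} {n q : ℕ}

/-- Groups `Z a c` of classes of algebraic cycles of codimension `c` on the strata `Y^(a+1)`, which
are preserved by the restrictions, the Gysin maps and the Lefschetz operator. -/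
structure CycleClasses (X : SpecialFibre.{u, v} Ω Γ n q) where
  Z : ∀ a : ℕ, ℕ → AddSubgroup (X.H a)
  group : ∀ a c : ℕ, IsCycleGroup (X.gr a) (n - a) c (X.pair a) (X.lef a) (Z a c)
  preserves : ∀ a : ℕ, PreservesCycles (Z a) (Z (a + 1)) (X.lef a) (X.res a) (X.gys a)

/-- The Hodge standard conjecture for the classes in `Z a c` on `Y^(a+1)`, `2 c ≤ d = n - a`: the
form `(-1)^c B(x, L^(d - 2 c) x)` is positive on the primitive ones. It is known for `c ≤ 1`. -/
def CycleClasses.HodgeStandard {X : SpecialFibre.{u, v} Ω Γ n q} (C : CycleClasses X)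
    (a c : ℕ) : Prop :=
  ∀ x ∈ C.Z a c, pw (X.lef a) (n - a - 2 * c + 1) x = 0 → x ≠ 0 →
    ∃ k : ℤ, 0 < (-1) ^ c * k ∧ ev (X.pair a) x (pw (X.lef a) (n - a - 2 * c) x) = k

/-- The classes in `H^w(Y^(a+1))` of character `χ` (simultaneous generalized eigenspace of the
operators in `Γ`). -/
def charPart (X : SpecialFibre.{u, v} Ω Γ n q) (a w : ℕ) (χ : Γ → Ω) : Submodule Ω (X.H a) :=
  X.gr a w ⊓ Wt (X.act a) χ

/-- Up to a space `T` as in `GeneratedBy`, for the form `B(x, L^(n - a - 1 - w) y)` on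
`H^w(Y^(a+2))`, the classes of character `χ` in `H^w(Y^(a+1))` are elements of `S`. -/
def GeneratedAt (X : SpecialFibre.{u, v} Ω Γ n q) (a w : ℕ) (χ : Γ → Ω)
    (S : Submodule Ω (X.H a)) : Prop :=
  GeneratedBy (charPart X a w χ) (X.gr a w) S (X.res a) (formL X (a + 1) (n - a - 1 - w))

/-- The classes of character `χ` in `H^w(Y^(a+1))` are of the form `L z` with `z` in
`H^(w-2)(Y^(a+1))`, up to a space `T` as in `GeneratedBy`. -/
def DivisibleAt (X : SpecialFibre.{u, v} Ω Γ n q) (a w : ℕ) (χ : Γ → Ω) : Prop :=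
  GeneratedAt X a w χ ((X.gr a ((w : ℤ) - 2)).map (X.lef a))

/-- The classes of character `χ` in `H^(2 c + 2)(Y^(a+1))` are algebraic, up to a space `T` as in
`GeneratedBy`, all classes in `H^(2 c)(Y^(a+2))` are algebraic, and the classes of cycles of
codimension `c + 1` on `Y^(a+2)` satisfy the Hodge standard conjecture. -/
def CycleClasses.AlgebraicAt {X : SpecialFibre.{u, v} Ω Γ n q} (C : CycleClasses X)
    (a c : ℕ) (χ : Γ → Ω) : Prop :=
  GeneratedAt X a (2 * c + 2) χ (Submodule.span Ω (C.Z a (c + 1) : Set (X.H a))) ∧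
    X.gr (a + 1) (2 * (c : ℤ)) ≤ Submodule.span Ω (C.Z (a + 1) c : Set (X.H (a + 1))) ∧
    C.HodgeStandard (a + 1) (c + 1)

/-- The character `χ` is harmless in weight `w` on `Y^(a+1)` and `Y^(a+2)` if

* the primitive part of character `χ` of `E_1^(a+1, w)` has dimension at most one, or it is contained
  in the coboundaries, or it meets the coboundaries in zero (`SimpleAt`), or
* the primitive part for the dual character is contained in the coboundaries, or
* the classes of character `χ` in `H^w(Y^(a+1))` are combinations of divisor classes, if `w = 2`, or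
* the classes of character `χ` in `H^w(Y^(a+1))` are multiples of `L`, if `w ≥ 3`, or
* the classes of character `χ` in `H^w(Y^(a+1))` are algebraic, as in `AlgebraicAt`

(in the last three cases up to a space `T` as in `GeneratedBy`). -/
def HarmlessAt {X : SpecialFibre.{u, v} Ω Γ n q} (A : DivisorClasses X) (C : CycleClasses X)
    (a w : ℕ) (χ : Γ → Ω) : Prop :=
  X.SimpleAt ((a : ℤ) + 1) w χ ∨ CoveredAt X ((a : ℤ) + 1) w (dualAt X w χ) ∨
    (w = 2 ∧ GeneratedAt X a w χ (Submodule.span Ω (A.A1 a : Set (X.H a)))) ∨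
    (3 ≤ w ∧ DivisibleAt X a w χ) ∨ ∃ c, w = 2 * c + 2 ∧ C.AlgebraicAt a c χ

end Run7.h615.WL
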