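import Pool.Agent.Run7.h615.WL.Defs

/-!
# Low degrees without the hard Lefschetz theorem for the generic fibre: definitions
-/

set_option autoImplicit false

namespace Run7.h615.WL

universe u v

open Module Pool.Agent.Y143 Pool.Agent.Helper60K9.KL

variable {Ω : Type u} [Field Ω] [CharZero Ω] {Γ : Type} {n q : ℕ}

/-- Up to a space `T` as in `GeneratedBy`, for the form `B(x, L^(n - a - 1 - w) y)` on
`H^w(Y^(a+2))`, all classes in `H^w(Y^(a+1))` are elements of `S`. -/
def AllGenerated (X : SpecialFibre.{u, v} Ω Γ n q) (a w : ℕ) (S : Submodule Ω (X.H a)) : Prop :=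
  GeneratedBy (X.gr a w) (X.gr a w) S (X.res a) (formL X (a + 1) (n - a - 1 - w))

/-- `H^2(Y^(a+1))` is spanned by classes of divisors, and `H^w(Y^(a+1)) = L H^(w-2)(Y^(a+1))` if
`w ≥ 3`, in both cases up to a space `T` as in `GeneratedBy`, for example up to classes with
restriction zero to `Y^(a+2)`. -/
def LowAt {X : SpecialFibre.{u, v} Ω Γ n q} (A : DivisorClasses X) (a w : ℕ) : Prop :=
  (w = 2 ∧ AllGenerated X a w (Submodule.span Ω (A.A1 a : Set (X.H a)))) ∨
    (3 ≤ w ∧ AllGenerated X a w ((X.gr a ((w : ℤ) - 2)).map (X.lef a)))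

/-- The dimension of the graded piece `gr^P_w H^m`. -/
noncomputable def grDim (X : SemistableModel.{u, v} Ω Γ n q) (m : ℕ) (w : ℤ) : ℤ :=
  finrank Ω (X.W m w) - finrank Ω (X.W m (w - 1))

/-- The dimensions of the graded pieces `gr^P_(m + e) H^m` and `gr^P_(m - e) H^m` are equal for all
`e`. -/
def IsSymmetric (X : SemistableModel.{u, v} Ω Γ n q) (m : ℕ) : Prop :=
  ∀ e : ℕ, grDim X m (m + e) = grDim X m (m - e)

end Run7.h615.WL
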