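import Pool.Agent.Run7.h615.WL.Core
import Pool.Agent.Run7.h615.WL.Alg

/-!
# The monodromy-weight conjecture in any dimension from harmless characters
-/

set_option autoImplicit false

namespace Run7.h615.WL

universe u v

open Module Pool.Agent.Y143 Pool.Agent.X302.MW Pool.Agent.Helper60K9.KL

variable {Ω : Type u} [Field Ω] [CharZero Ω] {Γ : Type} {n q : ℕ}

section degeneration

variable (X : Degeneration.{u, v} Ω Γ n q)

/-- The critical classes which are multiples of `L` are coboundaries. -/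
lemma cob_of_divisible (a m w : ℕ) (hn : a + 1 + w ≤ n) (hw : (w : ℤ) = n - m - ((a : ℤ) + 1))
    (hI : NInj X.diff X.tot ((a : ℤ) + 1) (-m - 2)) {χ : Γ → Ω}
    (h : DivisibleAt X.toSpecialFibre a w χ) {y : X.H a}
    (hy : y ∈ charPart X.toSpecialFibre a w χ) (hG : X.gys a (X.res a y) = 0) :
    (Pi.single (a + 1) (X.res a y) : X.C) ∈
      X.coboundaries (-((a : ℤ) + 1)) (w + 2 * ((a : ℤ) + 1)) := by
  obtain ⟨s, hs, hsy⟩ := exists_low X.toSpecialFibre h hy hG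
  rw [← hsy] at hG ⊢
  obtain ⟨z, hz, rfl⟩ := hs
  have hGz : X.gys a (X.res a z) = 0 := by
    have h1 : X.lef a (X.gys a (X.res a z)) = 0 := by
      rw [← X.gys_lef, ← X.res_lef]
      exact hG
    have h2 : X.gys a (X.res a z) ∈ X.gr a w := by
      have := X.gys_gr a _ _ (X.res_gr a _ _ hz)
      rwa [show (w : ℤ) - 2 + 2 = w by ring] at this
    exact lef_inj_below X.toSpecialFibre a w hn h2 h1
  have h3 := single_crit X.toSpecialFibre a (m + 2) (w := (w : ℤ) - 2) (by push_cast; omega) hz hGz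
  have h4 : (Pi.single (a + 1) (X.res a z) : X.C) ∈
      Bd X.diff X.tot (-((a : ℤ) + 1)) (-m - 2) := by
    apply hI
    rwa [show -((m + 2 : ℕ) : ℤ) = -m - 2 by push_cast; ring] at h3
  rw [X.bd_eq] at h4
  obtain ⟨u, hu, huz⟩ := h4
  refine ⟨X.lefC u, ?_, ?_⟩
  · have := X.lefC_mem hu
    exact X.mem_E₁_cast rfl (by omega) this
  · rw [X.diff_lefC, huz]
    funext b
    show X.lef b ((Pi.single (a + 1) (X.res a z) : X.C) b) = _
    by_cases hb : b = a + 1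
    · subst hb
      rw [Pi.single_eq_same, Pi.single_eq_same, X.res_lef]
    · rw [Pi.single_eq_of_ne hb, Pi.single_eq_of_ne hb, map_zero]

/-- The critical algebraic classes are coboundaries. -/
lemma cob_of_algebraic (C : CycleClasses X.toSpecialFibre) (a c m : ℕ)
    (hn : n = a + 2 * c + 3 + m)
    (hI : NInj X.diff X.tot ((a : ℤ) + 2) (-m - 1)) (hS : NSurj X.diff X.tot ((a : ℤ) + 1) (-m - 2))
    {χ : Γ → Ω} (h : C.AlgebraicAt a c χ) {y : X.H a}
    (hy : y ∈ charPart X.toSpecialFibre a (2 * c + 2) χ) (hG : X.gys a (X.res a y) = 0) :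
    (Pi.single (a + 1) (X.res a y) : X.C) ∈
      X.coboundaries (-((a : ℤ) + 1)) (((2 * c + 2 : ℕ) : ℤ) + 2 * ((a : ℤ) + 1)) := by
  obtain ⟨h1, hsp, hHS⟩ := h
  obtain ⟨s, hs, hsy⟩ := exists_low X.toSpecialFibre h1 hy hG
  rw [← hsy] at hG ⊢
  obtain ⟨b, hb, hbs⟩ := crit_alg X C a c m hn hI hS hHS hsp hs hG
  rw [hbs]
  apply single_mem_cob' X.toSpecialFibre a _ (v := X.res (a + 1) b)
  · have := X.res_gr (a + 1) _ _ hb
    rwa [show ((2 * c + 2 : ℕ) : ℤ) - 2 = 2 * (c : ℤ) by push_cast; ring]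
  · exact X.res_res (a + 1) b

variable [IsAlgClosed Ω]

lemma cls_bot (χ : Γ → Ω) (p i j : ℤ) (h : (n : ℤ) < |i| ∨ (n : ℤ) < |j|) :
    X.cls χ p i j = ⊥ := by
  rw [eq_bot_iff, ← X.tot_bdd i j h]
  intro x hx
  exact hx.1

/-- Injectivity of `N ^ i` on the whole `E_2` term from the injectivity for all characters. -/
lemma nInj_tot_of (i j : ℤ) (h : ∀ χ : Γ → Ω, NInj X.diff (X.cls χ 0) i j) :
    NInj X.diff X.tot i j := by
  rintro x ⟨hx1, hx2⟩
  apply mem_of_prj_mem (X.sym.comm (-i))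
  intro μ
  obtain ⟨χ, hχ⟩ := exists_chr X μ (-i) j
  have h1 := X.sym.prj_zc χ n 0 hx1
  have h2 := X.sym.prj_bd χ n 0 hx2
  have h4 : prj (X.actC (-i)) (X.sym.comm (-i)) μ x =
      prj (X.actC i) (X.sym.comm i) (chr X.cyc' χ n 0 i j) x := by
    have h5 := prj_equiv (X.sym.comm i) (X.sym.comm (-i)) (c := fun g => X.cyc' g ^ i)
      (fun g => zpow_ne_zero _ (X.cyc'_ne g)) (1 : Module.End Ω X.C)
      (fun g x => by
        have := X.sym.shift i i g x
        rwa [show i - 2 * i = -i by ring] at this) (chr X.cyc' χ n 0 i j) x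
    rw [← chr_neg X.cyc'_ne, hχ] at h5
    exact h5
  rw [hχ] at h1
  have h6 : prj (X.actC (-i)) (X.sym.comm (-i)) μ x ∈ Bd X.diff (X.cls χ 0) (-i) j := by
    apply h χ
    refine ⟨h1, ?_⟩
    rw [h4]
    exact h2
  exact Sym.bd_cl_le χ n 0 _ _ h6

/-- Surjectivity of `N ^ i` on the whole `E_2` term from the surjectivity for all characters. -/
lemma nSurj_tot_of (i j : ℤ) (h : ∀ χ : Γ → Ω, NSurj X.diff (X.cls χ 0) i j) :
    NSurj X.diff X.tot i j := by
  intro y hy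
  apply mem_of_prj_mem (X.sym.comm i)
  intro μ
  obtain ⟨χ, hχ⟩ := exists_chr X μ i j
  have h1 := X.sym.prj_zc χ n 0 hy
  rw [hχ] at h1
  obtain ⟨u, hu, v, hv, huv⟩ := Submodule.mem_sup.1 (h χ h1)
  exact Submodule.mem_sup.2 ⟨u, Sym.zc_cl_le χ n 0 _ _ hu, v, Sym.bd_cl_le χ n 0 _ _ hv, huv⟩

lemma crit_of_harmless (A : DivisorClasses X.toSpecialFibre) (C : CycleClasses X.toSpecialFibre)
    (χ : Γ → Ω) (p : ℤ) (a m w : ℕ)
    (hw2 : 2 ≤ w) (hn : a + 1 + w ≤ n) (hw : (n : ℤ) - m - ((a : ℤ) + 1) = w)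
    (hI : NInj X.diff X.tot ((a : ℤ) + 1) (-m - 2)) (hS : NSurj X.diff X.tot ((a : ℤ) + 1) (-m - 2))
    (hI2 : NInj X.diff X.tot ((a : ℤ) + 2) (-m - 1))
    (h : HarmlessAt A C a w (chr X.cyc' χ n p ((a : ℤ) + 1) (-m))) :
    CritI X.diff X.lefC (X.cls χ p) ((a : ℤ) + 1) m ∨
      CritS X.diff X.lefC (X.cls χ p) ((a : ℤ) + 1) m ∨
      CoveredAt X.toSpecialFibre ((a : ℤ) + 1) w
        (dualAt X.toSpecialFibre w (chr X.cyc' χ n p ((a : ℤ) + 1) (-m))) := by
  rcases h with h | h | ⟨h2, h⟩ | ⟨-, h⟩ | ⟨c, hc, h⟩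
  · rcases simple_cases h with h | h
    · exact Or.inr (Or.inl (critS_of_covered X χ p a m w hw h))
    · left
      right
      rw [← bd_tot_eq' X a m w hw] at h
      exact (h.mono_left (prim_le X χ p a m w hw)).mono_right (Sym.bd_cl_le χ n p _ _)
  · exact Or.inr (Or.inr h)
  · left
    left
    apply nInj_cls X a m rfl
    intro y hy hyW hG
    rw [hw] at hy ⊢
    subst h2
    obtain ⟨s, hs, hsy⟩ := exists_low X.toSpecialFibre h ⟨hy, hyW⟩ hG
    rw [← hsy] at hG ⊢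
    obtain ⟨v, hv, hR, hz⟩ := crit2 A a (by omega) hs hG
    rw [hz]
    exact single_mem_cobound X a hv hR
  · left
    left
    apply nInj_cls X a m rfl
    intro y hy hyW hG
    rw [hw] at hy ⊢
    exact cob_of_divisible X a m w hn hw.symm hI h ⟨hy, hyW⟩ hG
  · left
    left
    apply nInj_cls X a m rfl
    intro y hy hyW hG
    subst hc
    rw [hw] at hy ⊢
    exact cob_of_algebraic X C a c m (by push_cast at hw; omega) hI2 hS h ⟨hy, hyW⟩ hG

lemma critP_harmless (A : DivisorClasses X.toSpecialFibre) (C : CycleClasses X.toSpecialFibre)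
    (M : ℕ) (hA : ∀ (a w : ℕ) (χ : Γ → Ω), 2 ≤ w → a + 1 + w + M ≤ n → HarmlessAt A C a w χ)
    (i : ℤ) (hi : 1 ≤ i) (m : ℕ) (hm : M ≤ m)
    (hI : ∀ (i' : ℤ) (m' : ℕ), 1 ≤ i' → M ≤ m' → (m : ℤ) + i < m' + i' →
      NInj X.diff X.tot i' (-m') ∧ NSurj X.diff X.tot i' (-m'))
    (χ : Γ → Ω) (p : ℤ) :
    CritP X.diff X.lefC (X.cls χ p) (X.cls (X.dualChar χ) (1 - p)) i m := by
  obtain ⟨a, ha⟩ := Int.eq_ofNat_of_zero_le (show 0 ≤ i - 1 by omega)
  obtain rfl : i = (a : ℤ) + 1 := by omega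
  rcases lt_or_ge ((n : ℤ) - m - ((a : ℤ) + 1)) 2 with hw | hw
  · exact Or.inl ⟨critI_low X A χ p a m hw, critI_low X A _ _ a m hw⟩
  obtain ⟨w, hw'⟩ := Int.eq_ofNat_of_zero_le (show 0 ≤ (n : ℤ) - m - ((a : ℤ) + 1) by omega)
  have h2 : 2 ≤ w := by omega
  have hn : a + 1 + w + M ≤ n := by omega
  have hdual := chr_dual X χ p ((a : ℤ) + 1) m hw'
  obtain ⟨hI1, hS1⟩ := hI ((a : ℤ) + 1) (m + 2) (by omega) (by omega) (by push_cast; omega)
  obtain ⟨hI2, -⟩ := hI ((a : ℤ) + 2) (m + 1) (by omega) (by omega) (by push_cast; omega)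
  rw [show -((m + 2 : ℕ) : ℤ) = -m - 2 by push_cast; ring] at hI1 hS1
  rw [show -((m + 1 : ℕ) : ℤ) = -m - 1 by push_cast; ring] at hI2
  rcases crit_of_harmless X A C χ p a m w h2 (by omega) hw' hI1 hS1 hI2 (hA _ _ _ h2 hn) with
    h | h | h
  · rcases crit_of_harmless X A C (X.dualChar χ) (1 - p) a m w h2 (by omega) hw' hI1 hS1 hI2
      (hA _ _ _ h2 hn) with h' | h' | h'
    · exact Or.inl ⟨h, h'⟩
    · exact Or.inr (Or.inr h')
    · rw [hdual, dualAt_dualAt] at h'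
      exact Or.inr (Or.inl (critS_of_covered X χ p a m w hw' h'))
  · exact Or.inr (Or.inl h)
  · rw [← hdual] at h
    exact Or.inr (Or.inr (critS_of_covered X _ _ a m w hw' h))

lemma good_harmless (A : DivisorClasses X.toSpecialFibre) (C : CycleClasses X.toSpecialFibre)
    (M : ℕ) (hA : ∀ (a w : ℕ) (χ : Γ → Ω), 2 ≤ w → a + 1 + w + M ≤ n → HarmlessAt A C a w χ)
    (χ : Γ → Ω) (i j : ℤ) (hi : 1 ≤ i) (hj : (M : ℤ) ≤ |j|) :
    Good2 X.diff (X.cls χ 0) (X.cls (X.dualChar χ) (1 - 0)) i j := by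
  refine good_family (κ := Γ → Ω) (G := fun χ => X.cls χ 0)
    (G' := fun χ => X.cls (X.dualChar χ) (1 - 0)) (fun χ => X.cls_dual 0 χ)
    (fun χ => X.cls_lefComplex χ 0) (fun χ => X.cls_lefComplex (X.dualChar χ) (1 - 0)) n
    (by positivity) (fun χ i j h => ⟨cls_bot X χ 0 i j h, cls_bot X _ _ i j h⟩) M ?_ χ i j hi hj
  intro i hi m hm hgood χ
  exact critP_harmless X A C M hA i hi m hm (fun i' m' h1 h2 h3 =>
    ⟨nInj_tot_of X i' _ fun χ => (hgood χ i' m' h1 h2 h3).inj,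
      nSurj_tot_of X i' _ fun χ => (hgood χ i' m' h1 h2 h3).surj⟩) χ 0

/-- **mw purity in any dimension.** `H^k` is mw pure if all characters are harmless in the weights
`w ≥ 2` on the strata `Y^(a+1)`, `Y^(a+2)` with `a + 1 + w ≤ min(k, 2 n - k)`. -/
theorem mw_of_harmless (A : DivisorClasses X.toSpecialFibre) (C : CycleClasses X.toSpecialFibre)
    (k : ℕ) (hA : ∀ (a w : ℕ) (χ : Γ → Ω), 2 ≤ w → a + 1 + w ≤ k → a + 1 + w + k ≤ 2 * n →
      HarmlessAt A C a w χ) :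
    IsMWPure q k (X.actV k X.frob) (X.N k) := by
  have hA' : ∀ (a w : ℕ) (χ : Γ → Ω), 2 ≤ w → a + 1 + w + ((k : ℤ) - n).natAbs ≤ n →
      HarmlessAt A C a w χ := by
    intro a w χ h1 h2
    apply hA a w χ h1 <;> omega
  apply X.toSemistableModel.isMWPure_of k
  · intro a ha
    exact nInj_tot_of X a _ fun χ => (good_harmless X A C _ hA' χ a _ (by exact_mod_cast ha)
      (by rw [Int.abs_eq_natAbs])).inj
  · intro a ha
    exact nSurj_tot_of X a _ fun χ => (good_harmless X A C _ hA' χ a _ (by exact_mod_cast ha)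
      (by rw [Int.abs_eq_natAbs])).surj

end degeneration

end Run7.h615.WL
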