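import Pool.Agent.Run7.h615.WL.BaseDefs

/-!
# `(φ, N)`-modules
-/

set_option autoImplicit false

namespace Run7.h615.WL

universe u

open Module Pool.Agent.Y143 TensorProduct

section

variable {K : Type u} [Field K] {D : Type u} [AddCommGroup D] [Module K D]

/-- `D` is a `(φ, N)`-module over `K = K_0`, where the residue field has `p ^ f` elements: `φ` is a
`σ`-semilinear bijection, `N` is linear and nilpotent, `N φ = p φ N`; `F` is the linear operator
`φ ^ f`. -/
structure IsPhiN (σ : K →+* K) (p f : ℕ) (φ : D → D) (N F : Module.End K D) : Prop where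
  finite : Module.Finite K D
  add : ∀ x y, φ (x + y) = φ x + φ y
  smul : ∀ a x, φ (a • x) = σ a • φ x
  bij : Function.Bijective φ
  comm : ∀ x, N (φ x) = (p : K) • φ (N x)
  nilpotent : IsNilpotent N
  linear : ∀ x, F x = φ^[f] x

/-- The weight-monodromy conjecture for a `(φ, N)`-module, in degree `i`: `φ` preserves the
monodromy filtration `M` and every eigenvalue of `φ ^ f` (in the algebraically closed field `Ω`) on
`M_j / M_(j-1)` is an algebraic number all of whose complex absolute values are `q ^ ((i + j) / 2)`,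
`q = p ^ f`. -/
def IsPurePhiN (Ω : Type u) [Field Ω] [CharZero Ω] [Algebra K Ω] (p f : ℕ) (i : ℤ) (φ : D → D)
    (N F : Module.End K D) : Prop :=
  ∃ M : ℤ → Submodule K D, IsMonodromyFiltration N M ∧ (∀ j x, x ∈ M j → φ x ∈ M j) ∧
    ∀ j, EigenvaluesWeilOver Ω (p ^ f) (i + j) F (M j) (M (j - 1))

end

/-- The Hyodo-Kato cohomology `D = H^i_HK(Y)` of a smooth projective variety over `K`: a
`(φ, N)`-module over `K_0`, with `F = φ ^ f`. -/
structure PhiNModule (K : Type u) [Field K] (σ : K →+* K) (p f : ℕ) where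
  D : Type u
  [addCommGroup : AddCommGroup D]
  [module : Module K D]
  φ : D → D
  N : Module.End K D
  F : Module.End K D
  isPhiN : IsPhiN σ p f φ N F

attribute [instance] PhiNModule.addCommGroup PhiNModule.module

/-- The weight-monodromy conjecture for the `(φ, N)`-module. -/
def PhiNModule.IsPure {K : Type u} [Field K] {σ : K →+* K} {p f : ℕ} (R : PhiNModule K σ p f)
    (Ω : Type u) [Field Ω] [CharZero Ω] [Algebra K Ω] (i : ℤ) : Prop :=
  IsPurePhiN Ω p f i R.φ R.N R.F

section

variable {Ω : Type u} [Field Ω] {V : Type u} [AddCommGroup V] [Module Ω V]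
  {V' : Type u} [AddCommGroup V'] [Module Ω V']

/-- `V`, with `F` and `N`, is a direct summand of `V'`, with `F'` and `N'`, by the maps `i` and `r`
(`c` compares the normalizations of `N` and `N'`). -/
structure IsRetract (F N : Module.End Ω V) (F' N' : Module.End Ω V') (i : V →ₗ[Ω] V')
    (r : V' →ₗ[Ω] V) (c : Ω) : Prop where
  retract : ∀ v, r (i v) = v
  pull : ∀ v, F' (i v) = i (F v)
  push : ∀ v, F (r v) = r (F' v)
  ne : c ≠ 0
  pullN : ∀ v, N' (i v) = c • i (N v)
  pushN : ∀ v, r (N' v) = c • N (r v)

/-- `V`, with `F` and `N`, is a direct summand of `V'`, with `F'` and `N'`. -/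
def IsDirectSummand (F N : Module.End Ω V) (F' N' : Module.End Ω V') : Prop :=
  ∃ (i : V →ₗ[Ω] V') (r : V' →ₗ[Ω] V) (c : Ω), IsRetract F N F' N' i r c

end

/-- `V' = H^i_HK(Y')` (over `Ω`) for a smooth projective variety `Y'` with a surjective map to `Y`, with
the linear Frobenius `F'` and the monodromy operator `N'`; then `Ω ⊗ D` is a direct summand of `V'`,
by the pull-back and a multiple of the push-forward. -/
def PhiNModule.IsDominated {K : Type u} [Field K] {σ : K →+* K} {p f : ℕ}
    (R : PhiNModule K σ p f) {Ω : Type u} [Field Ω] [Algebra K Ω] {V' : Type u} [AddCommGroup V']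
    [Module Ω V'] (F' N' : Module.End Ω V') : Prop :=
  IsDirectSummand (R.F.baseChange Ω) (R.N.baseChange Ω) F' N'

end Run7.h615.WL
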